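import Mathlib

set_option autoImplicit false

/-! Averages of periodic functions; moments of sums of functions of the residues modulo primes. -/

namespace Pool.Agent.Helper65.EK

open Finset

section gen
variable {𝕜 : Type*} [RCLike 𝕜]

/-- periodic functions depend on the residue only -/
lemma per_mod {F : ℕ → 𝕜} {m : ℕ} (hF : ∀ x, F (x + m) = F x) (x : ℕ) : F (x % m) = F x := by
  have h : ∀ k r : ℕ, F (r + m * k) = F r := by
    intro k r
    induction k with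
    | zero => simp
    | succ k ih => rw [Nat.mul_succ, ← add_assoc, hF, ih]
  conv_rhs => rw [← Nat.mod_add_div x m]
  rw [h]

lemma sum_periods {F : ℕ → 𝕜} {m : ℕ} (hF : ∀ x, F (x + m) = F x) (k : ℕ) :
    ∑ x ∈ range (m * k), F x = k * ∑ x ∈ range m, F x := by
  induction k with
  | zero => simp
  | succ k ih =>
    rw [Nat.mul_succ, sum_range_add, ih]
    have : ∑ x ∈ range m, F (m * k + x) = ∑ x ∈ range m, F x := by
      apply sum_congr rfl
      intro x _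
      rw [← per_mod hF (m * k + x), ← per_mod hF x, Nat.mul_add_mod]
    rw [this]
    push_cast
    ring

lemma avg_close {F : ℕ → 𝕜} {m : ℕ} (hm : 1 ≤ m) (hF : ∀ x, F (x + m) = F x) {C : ℝ} (hC : ∀ x, ‖F x‖ ≤ C) (N : ℕ)
    (hN : 1 ≤ N) :
    ‖(∑ x ∈ range N, F x) / N - (∑ x ∈ range m, F x) / m‖ ≤ 2 * m * C / N := by
  have hC0 : 0 ≤ C := (norm_nonneg _).trans (hC 0)
  have hmr : (0 : ℝ) < m := by exact_mod_cast hm
  have hNr : (0 : ℝ) < N := by exact_mod_cast hN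
  have hm0 : (m : 𝕜) ≠ 0 := by exact_mod_cast (by omega : m ≠ 0)
  have hN0 : (N : 𝕜) ≠ 0 := by exact_mod_cast (by omega : N ≠ 0)
  have h1 := Nat.div_add_mod N m
  have h2 : ∑ x ∈ range N, F x = ((N / m : ℕ) : 𝕜) * ∑ x ∈ range m, F x + ∑ x ∈ range (N % m), F (m * (N / m) + x) := by
    conv_lhs => rw [← h1, sum_range_add, sum_periods hF]
  have h3 : (N : 𝕜) = m * ((N / m : ℕ) : 𝕜) + ((N % m : ℕ) : 𝕜) := by exact_mod_cast h1.symm
  have h4 : (∑ x ∈ range N, F x) / N - (∑ x ∈ range m, F x) / m =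
      (∑ x ∈ range (N % m), F (m * (N / m) + x) - ((N % m : ℕ) : 𝕜) / m * ∑ x ∈ range m, F x) / N := by
    rw [h2]
    have h5 : ((N / m : ℕ) : 𝕜) = (N - ((N % m : ℕ) : 𝕜)) / m := by
      rw [h3]
      field_simp
      ring
    rw [h5]
    field_simp
    ring
  have hr : N % m < m := Nat.mod_lt _ hm
  have hrr : ((N % m : ℕ) : ℝ) ≤ m := by exact_mod_cast hr.le
  rw [h4, norm_div, RCLike.norm_natCast]
  apply div_le_div_of_nonneg_right _ hNr.le
  refine (norm_sub_le _ _).trans ?_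
  have h6 : ‖∑ x ∈ range (N % m), F (m * (N / m) + x)‖ ≤ m * C := by
    refine (norm_sum_le _ _).trans ((sum_le_sum fun x _ => hC _).trans ?_)
    rw [sum_const, card_range, nsmul_eq_mul]
    exact mul_le_mul_of_nonneg_right hrr hC0
  have h7 : ‖((N % m : ℕ) : 𝕜) / m * ∑ x ∈ range m, F x‖ ≤ m * C := by
    rw [norm_mul, norm_div, RCLike.norm_natCast, RCLike.norm_natCast]
    have h8 : ‖∑ x ∈ range m, F x‖ ≤ m * C := by
      refine (norm_sum_le _ _).trans ((sum_le_sum fun x _ => hC _).trans ?_)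
      rw [sum_const, card_range, nsmul_eq_mul]
    have h9 : ((N % m : ℕ) : ℝ) / m ≤ 1 := by rw [div_le_one hmr]; exact hrr
    calc ((N % m : ℕ) : ℝ) / m * ‖∑ x ∈ range m, F x‖ ≤ 1 * (m * C) :=
          mul_le_mul h9 h8 (norm_nonneg _) zero_le_one
      _ = m * C := one_mul _
  linarith

/-- the Chinese remainder theorem for sums of products -/
lemma crt_sum {F G : ℕ → 𝕜} {p R : ℕ} (hp : 0 < p) (hR : 0 < R) (hc : Nat.Coprime p R) (hF : ∀ x, F (x + p) = F x)
    (hG : ∀ x, G (x + R) = G x) :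
    ∑ x ∈ range (p * R), F x * G x = (∑ x ∈ range p, F x) * ∑ x ∈ range R, G x := by
  rw [sum_mul_sum, ← sum_product']
  apply sum_nbij (fun x => (x % p, x % R))
  · intro x _
    rw [mem_product, mem_range, mem_range]
    exact ⟨Nat.mod_lt _ hp, Nat.mod_lt _ hR⟩
  · intro x hx y hy hxy
    rw [coe_range, Set.mem_Iio] at hx hy
    rw [Prod.mk.injEq] at hxy
    have h1 : x ≡ y [MOD p * R] := (Nat.modEq_and_modEq_iff_modEq_mul hc).1 ⟨hxy.1, hxy.2⟩
    exact Nat.ModEq.eq_of_lt_of_lt h1 hx hy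
  · intro ab hab
    rw [coe_product, Set.mem_prod, coe_range, coe_range, Set.mem_Iio, Set.mem_Iio] at hab
    obtain ⟨k, hk1, hk2⟩ := Nat.chineseRemainder hc ab.1 ab.2
    refine ⟨k % (p * R), ?_, ?_⟩
    · rw [coe_range, Set.mem_Iio]
      exact Nat.mod_lt _ (by positivity)
    · have h1 : k % (p * R) % p = k % p := Nat.mod_mul_right_mod _ _ _
      have h2 : k % (p * R) % R = k % R := Nat.mod_mul_left_mod _ _ _
      show (k % (p * R) % p, k % (p * R) % R) = ab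
      rw [h1, h2, hk1, hk2, Nat.mod_eq_of_lt hab.1, Nat.mod_eq_of_lt hab.2]
  · intro x _
    rw [per_mod hF, per_mod hG]

lemma prod_per {P : Finset ℕ} {F : ℕ → ℕ → 𝕜} (hF : ∀ p ∈ P, ∀ x, F p (x + p) = F p x) (x : ℕ) :
    ∏ p ∈ P, F p (x + ∏ p ∈ P, p) = ∏ p ∈ P, F p x := by
  apply prod_congr rfl
  intro p hp
  obtain ⟨k, hk⟩ := dvd_prod_of_mem (fun p => p) hp
  rw [hk, ← per_mod (hF p hp) (x + p * k), Nat.add_mul_mod_self_left, per_mod (hF p hp)]

/-- independence modulo different primes -/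
lemma crt_prod {P : Finset ℕ} (hP : ∀ p ∈ P, p.Prime) {F : ℕ → ℕ → 𝕜} (hF : ∀ p ∈ P, ∀ x, F p (x + p) = F p x) :
    (∑ x ∈ range (∏ p ∈ P, p), ∏ p ∈ P, F p x) / ((∏ p ∈ P, p : ℕ) : 𝕜) = ∏ p ∈ P, ((∑ x ∈ range p, F p x) / p) := by
  classical
  induction P using Finset.induction_on with
  | empty => simp
  | insert q P hq ih =>
    have hP' : ∀ p ∈ P, p.Prime := fun p hp => hP p (mem_insert_of_mem hp)
    have hF' : ∀ p ∈ P, ∀ x, F p (x + p) = F p x := fun p hp => hF p (mem_insert_of_mem hp)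
    have hqp := hP q (mem_insert_self _ _)
    have hR : 0 < ∏ p ∈ P, p := prod_pos fun p hp => (hP' p hp).pos
    have hc : Nat.Coprime q (∏ p ∈ P, p) := by
      apply Nat.Coprime.prod_right
      intro p hp
      rw [Nat.coprime_primes hqp (hP' p hp)]
      rintro rfl
      exact hq hp
    rw [prod_insert hq, prod_insert hq, ← ih hP' hF']
    have h1 : ∑ x ∈ range (q * ∏ p ∈ P, p), ∏ p ∈ insert q P, F p x =
        (∑ x ∈ range q, F q x) * ∑ x ∈ range (∏ p ∈ P, p), ∏ p ∈ P, F p x := by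
      rw [← crt_sum hqp.pos hR hc (hF q (mem_insert_self _ _)) (prod_per hF')]
      apply sum_congr rfl
      intro x _
      rw [prod_insert hq]
    rw [h1]
    push_cast
    rw [div_mul_div_comm]

end gen

/-- comparison of the moments -/
theorem moments {P : Finset ℕ} {z : ℕ} (hP1 : ∀ p ∈ P, 1 ≤ p) (hPz : ∀ p ∈ P, p ≤ z) {Y : ℕ → ℕ → ℝ}
    (hY : ∀ p ∈ P, ∀ x, Y p (x + p) = Y p x) {τ : ℝ} (hτ : ∀ p ∈ P, ∀ x, |Y p x| ≤ τ) (hτ0 : 0 ≤ τ)
    {R : ℕ} (hR1 : 1 ≤ R) (hR : ∀ p ∈ P, p ∣ R) (j : ℕ) {N : ℕ} (hN : 1 ≤ N) :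
    |(∑ x ∈ range N, (∑ p ∈ P, Y p x) ^ j) / N - (∑ x ∈ range R, (∑ p ∈ P, Y p x) ^ j) / R| ≤
      4 * τ ^ j * (z : ℝ) ^ (2 * j) / N := by
  classical
  have hNr : (0 : ℝ) < N := by exact_mod_cast hN
  have hRr : (1 : ℝ) ≤ R := by exact_mod_cast hR1
  have hex : ∀ x, (∑ p ∈ P, Y p x) ^ j = ∑ φ ∈ Fintype.piFinset (fun _ : Fin j => P), ∏ i, Y (φ i) x := by
    intro x
    have h := Finset.prod_univ_sum (fun _ : Fin j => P) (fun _ p => Y p x)
    rw [← h, prod_const, card_univ, Fintype.card_fin]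
  have hcard : (Fintype.piFinset (fun _ : Fin j => P)).card ≤ z ^ j := by
    rw [Fintype.card_piFinset, prod_const, card_univ, Fintype.card_fin]
    apply Nat.pow_le_pow_left
    have : P ⊆ Icc 1 z := fun p hp => mem_Icc.2 ⟨hP1 p hp, hPz p hp⟩
    have h := card_le_card this
    rwa [Nat.card_Icc, Nat.add_sub_cancel] at h
  -- each product
  have hone : ∀ φ ∈ Fintype.piFinset (fun _ : Fin j => P), 
      |(∑ x ∈ range N, ∏ i, Y (φ i) x) / N - (∑ x ∈ range R, ∏ i, Y (φ i) x) / R| ≤ 4 * τ ^ j * (z : ℝ) ^ j / N := by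
    intro φ hφ
    rw [Fintype.mem_piFinset] at hφ
    set G : ℕ → ℝ := fun x => ∏ i, Y (φ i) x with hG
    have hGb : ∀ x, ‖G x‖ ≤ τ ^ j := by
      intro x
      rw [hG, Real.norm_eq_abs, Finset.abs_prod]
      refine (prod_le_prod (fun i _ => abs_nonneg _) (fun i _ => hτ (φ i) (hφ i) x)).trans (le_of_eq ?_)
      rw [prod_const, card_univ, Fintype.card_fin]
    have hmul : ∀ p ∈ P, ∀ m, p ∣ m → ∀ x, Y p (x + m) = Y p x := by
      intro p hp m hm x
      obtain ⟨k, rfl⟩ := hm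
      rw [← per_mod (hY p hp) (x + p * k), Nat.add_mul_mod_self_left, per_mod (hY p hp)]
    have hGp : ∀ x, G (x + ∏ i, φ i) = G x := by
      intro x
      apply prod_congr rfl
      intro i _
      exact hmul _ (hφ i) _ (dvd_prod_of_mem φ (mem_univ i)) x
    have hGR : ∀ x, G (x + R) = G x := by
      intro x
      apply prod_congr rfl
      intro i _
      exact hmul _ (hφ i) _ (hR _ (hφ i)) x
    have hm1 : 1 ≤ ∏ i, φ i := Nat.one_le_iff_ne_zero.2 (prod_ne_zero_iff.2 fun i _ => by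
      have := hP1 _ (hφ i)
      omega)
    have hmz : ((∏ i, φ i : ℕ) : ℝ) ≤ (z : ℝ) ^ j := by
      have : ∏ i, φ i ≤ z ^ j := by
        refine (prod_le_prod' fun i _ => hPz _ (hφ i)).trans (le_of_eq ?_)
        rw [prod_const, card_univ, Fintype.card_fin]
      exact_mod_cast this
    have e1 := avg_close hm1 hGp hGb N hN
    have e2 := avg_close hm1 hGp hGb (R * N) (Nat.one_le_iff_ne_zero.2 (by positivity))
    have e3 : (∑ x ∈ range (R * N), G x) / ((R * N : ℕ) : ℝ) = (∑ x ∈ range R, G x) / R := by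
      rw [sum_periods hGR]
      push_cast
      field_simp
    rw [e3] at e2
    have hτj : 0 ≤ τ ^ j := by positivity
    have e4 : 2 * ((∏ i, φ i : ℕ) : ℝ) * τ ^ j / N ≤ 2 * (z : ℝ) ^ j * τ ^ j / N := by
      apply div_le_div_of_nonneg_right _ hNr.le
      apply mul_le_mul_of_nonneg_right _ hτj
      linarith
    have e5 : 2 * ((∏ i, φ i : ℕ) : ℝ) * τ ^ j / ((R * N : ℕ) : ℝ) ≤ 2 * (z : ℝ) ^ j * τ ^ j / N := by
      refine le_trans ?_ e4
      apply div_le_div_of_nonneg_left (by positivity) hNr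
      push_cast
      nlinarith
    rw [Real.norm_eq_abs] at e1 e2
    have e6 : (∑ x ∈ range N, G x) / N - (∑ x ∈ range R, G x) / R =
        ((∑ x ∈ range N, G x) / N - (∑ x ∈ range (∏ i, φ i), G x) / ((∏ i, φ i : ℕ) : ℝ)) -
        ((∑ x ∈ range R, G x) / R - (∑ x ∈ range (∏ i, φ i), G x) / ((∏ i, φ i : ℕ) : ℝ)) := by ring
    rw [e6]
    refine (abs_sub _ _).trans ?_
    have e7 : 4 * τ ^ j * (z : ℝ) ^ j / N = 2 * (z : ℝ) ^ j * τ ^ j / N + 2 * (z : ℝ) ^ j * τ ^ j / N := by ring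
    rw [e7]
    exact add_le_add (e1.trans e4) (e2.trans e5)
  simp only [hex]
  rw [sum_comm, sum_comm (s := range R), sum_div, sum_div, ← sum_sub_distrib]
  refine (abs_sum_le_sum_abs _ _).trans ((sum_le_sum hone).trans ?_)
  rw [sum_const, nsmul_eq_mul]
  have h1 : ((Fintype.piFinset (fun _ : Fin j => P)).card : ℝ) ≤ (z : ℝ) ^ j := by exact_mod_cast hcard
  calc ((Fintype.piFinset (fun _ : Fin j => P)).card : ℝ) * (4 * τ ^ j * (z : ℝ) ^ j / N)
      ≤ (z : ℝ) ^ j * (4 * τ ^ j * (z : ℝ) ^ j / N) := mul_le_mul_of_nonneg_right h1 (by positivity)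
    _ = 4 * τ ^ j * (z : ℝ) ^ (2 * j) / N := by rw [two_mul, pow_add]; ring

end Pool.Agent.Helper65.EK
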