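import Pool.Agent.Helper65.EK.Lim

set_option autoImplicit false

/-! The limit of the joint distribution functions. -/

namespace Pool.Agent.Helper65.EK

open Finset Filter Topology MeasureTheory ProbabilityTheory
open scoped ENNReal

variable {ι : Type*} [Fintype ι]

/-- the uniform distribution on the values of `v` at `0, …, N` -/
noncomputable def law (v : ℕ → EuclideanSpace ℝ ι) (N : ℕ) : Measure (EuclideanSpace ℝ ι) :=
  (((N + 1 : ℕ) : ℝ≥0∞)⁻¹) • ∑ x ∈ range (N + 1), Measure.dirac (v x)

instance (v : ℕ → EuclideanSpace ℝ ι) (N : ℕ) : IsProbabilityMeasure (law v N) := by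
  constructor
  unfold law
  rw [Measure.smul_apply, Measure.finset_sum_apply]
  simp only [measure_univ, sum_const, card_range, nsmul_eq_mul, mul_one, smul_eq_mul]
  exact ENNReal.inv_mul_cancel (by simp) (ENNReal.natCast_ne_top _)

lemma law_apply (v : ℕ → EuclideanSpace ℝ ι) (N : ℕ) {S : Set (EuclideanSpace ℝ ι)} (hS : MeasurableSet S)
    [DecidablePred (fun x => v x ∈ S)] :
    (law v N S).toReal = (((range (N + 1)).filter (fun x => v x ∈ S)).card : ℝ) / ((N + 1 : ℕ) : ℝ) := by
  unfold law
  rw [Measure.smul_apply, Measure.finset_sum_apply]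
  simp only [Measure.dirac_apply' _ hS, smul_eq_mul]
  have h1 : ∑ x ∈ range (N + 1), S.indicator (1 : EuclideanSpace ℝ ι → ℝ≥0∞) (v x) =
      (((range (N + 1)).filter (fun x => v x ∈ S)).card : ℝ≥0∞) := by
    rw [card_filter]
    push_cast
    apply sum_congr rfl
    intro x _
    by_cases h : v x ∈ S
    · rw [Set.indicator_of_mem h, if_pos h]
      rfl
    · rw [Set.indicator_of_notMem h, if_neg h]
  rw [h1, ENNReal.toReal_mul, ENNReal.toReal_inv, ENNReal.toReal_natCast, ENNReal.toReal_natCast, mul_comm]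
  rfl

lemma law_charFun (v : ℕ → EuclideanSpace ℝ ι) (N : ℕ) (t : EuclideanSpace ℝ ι) :
    charFun (law v N) t = E (N + 1) (fun x => Complex.exp ((inner ℝ (v x) t : ℝ) * Complex.I)) := by
  unfold law E
  rw [charFun_apply, integral_smul_measure, integral_finset_sum_measure]
  · simp only [integral_dirac]
    rw [ENNReal.toReal_inv, ENNReal.toReal_natCast, Complex.real_smul, mul_comm, div_eq_mul_inv]
    push_cast
    rfl
  · intro x _
    exact integrable_dirac (by simp [enorm_lt_top])

/-- the box -/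
def box (y : ι → ℝ) : Set (EuclideanSpace ℝ ι) := {v | ∀ i, v i ≤ y i}

lemma box_closed (y : ι → ℝ) : IsClosed (box y) := by
  unfold box
  have : {v : EuclideanSpace ℝ ι | ∀ i, v i ≤ y i} = ⋂ i, {v : EuclideanSpace ℝ ι | v i ≤ y i} := by
    ext v
    simp
  rw [this]
  apply isClosed_iInter
  intro i
  exact isClosed_le (by fun_prop) continuous_const

lemma box_frontier (y : ι → ℝ) : frontier (box y) ⊆ ⋃ i, {v : EuclideanSpace ℝ ι | v i = y i} := by
  rw [(box_closed y).frontier_eq]
  intro v hv
  by_contra hcon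
  apply hv.2
  rw [Set.mem_iUnion] at hcon
  push Not at hcon
  have hlt : v ∈ ⋂ i, {v : EuclideanSpace ℝ ι | v i < y i} := by
    rw [Set.mem_iInter]
    intro i
    exact lt_of_le_of_ne (hv.1 i) (hcon i)
  have hopen : IsOpen (⋂ i, {v : EuclideanSpace ℝ ι | v i < y i}) := by
    apply isOpen_iInter_of_finite
    intro i
    exact isOpen_lt (by fun_prop) continuous_const
  refine mem_interior.2 ⟨_, ?_, hopen, hlt⟩
  intro w hw i
  rw [Set.mem_iInter] at hw
  exact (hw i).le

lemma gauss_box (y : ι → ℝ) : (stdGaussian (EuclideanSpace ℝ ι)) (box y) = ∏ i, gaussianReal 0 1 (Set.Iic (y i)) := by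
  rw [← map_pi_eq_stdGaussian, Measure.map_apply (by fun_prop) (box_closed y).measurableSet]
  have : (WithLp.toLp 2 : (ι → ℝ) → EuclideanSpace ℝ ι) ⁻¹' (box y) = Set.pi Set.univ (fun i => Set.Iic (y i)) := by
    ext x
    rw [Set.mem_preimage, Set.mem_univ_pi]
    exact Iff.rfl
  rw [this, Measure.pi_pi]

lemma gauss_frontier (y : ι → ℝ) : (stdGaussian (EuclideanSpace ℝ ι)) (frontier (box y)) = 0 := by
  apply measure_mono_null (box_frontier y)
  rw [measure_iUnion_null_iff]
  intro i
  have hm : MeasurableSet {v : EuclideanSpace ℝ ι | v i = y i} :=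
    (isClosed_eq (by fun_prop) continuous_const).measurableSet
  rw [← map_pi_eq_stdGaussian, Measure.map_apply (by fun_prop) hm]
  have h1 : (WithLp.toLp 2 : (ι → ℝ) → EuclideanSpace ℝ ι) ⁻¹' {v : EuclideanSpace ℝ ι | v i = y i} =
      (Function.eval i : (ι → ℝ) → ℝ) ⁻¹' {y i} := by
    ext x
    exact Iff.rfl
  rw [h1, (measurePreserving_eval (fun _ : ι => gaussianReal 0 1) i).measure_preimage
    (measurableSet_singleton _).nullMeasurableSet]
  have := noAtoms_gaussianReal (μ := 0) (v := 1) (by norm_num)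
  exact measure_singleton _

/-- the distribution function of the normal law -/
noncomputable def Phi (y : ℝ) : ℝ := (gaussianReal 0 1).real (Set.Iic y)

open Classical in
/-- the number of the `x < N` for which all the values are below the thresholds -/
noncomputable def cnt (a : ℕ → ℝ) (α γ : ι → ℕ) (y : ι → ℝ) (N : ℕ) : ℕ :=
  ((range N).filter (fun x => ∀ i, fs a (α i * x + γ i) ≤ A a N + y i * Real.sqrt (V a N))).card

theorem dist_lim {a : ℕ → ℝ} (ha : ∀ p, p.Prime → |a p| ≤ 1) (hV : Tendsto (V a) atTop atTop) {α γ : ι → ℕ}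
    (hf : Forms α γ) (y : ι → ℝ) :
    Tendsto (fun N => (cnt a α γ y N : ℝ) / N) atTop (𝓝 (∏ i, Phi (y i))) := by
  classical
  -- the random vectors
  set v : ℕ → ℕ → EuclideanSpace ℝ ι := fun N x =>
    WithLp.toLp 2 (fun i => (fs a (α i * x + γ i) - A a (N + 1)) / Real.sqrt (V a (N + 1))) with hv
  set μ : ℕ → ProbabilityMeasure (EuclideanSpace ℝ ι) := fun N => ⟨law (v N) N, inferInstance⟩ with hμ
  set μ₀ : ProbabilityMeasure (EuclideanSpace ℝ ι) := ⟨stdGaussian (EuclideanSpace ℝ ι), inferInstance⟩ with hμ₀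
  have hlim : Tendsto μ atTop (𝓝 μ₀) := by
    apply ProbabilityMeasure.tendsto_of_tendsto_charFun
    intro t
    have h1 := (tendsto_add_atTop_iff_nat 1).2 (char_lim ha hV hf (fun i => t i))
    have h2 : charFun (μ₀ : Measure (EuclideanSpace ℝ ι)) t = Complex.exp (-((∑ i, t i ^ 2) / 2 : ℝ)) := by
      show charFun (stdGaussian (EuclideanSpace ℝ ι)) t = _
      rw [charFun_stdGaussian, ← Complex.ofReal_pow, EuclideanSpace.real_norm_sq_eq]
      push_cast
      ring_nf
    rw [h2]
    refine h1.congr fun N => ?_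
    show _ = charFun (law (v N) N) t
    rw [law_charFun]
    congr 1
    funext x
    congr 3
    unfold Z
    rw [hv]
    simp only [PiLp.inner_apply]
    rw [sum_div]
    apply sum_congr rfl
    intro i _
    simp only [RCLike.inner_apply, conj_trivial]
    ring
  have h3 := ProbabilityMeasure.tendsto_measure_of_null_frontier_of_tendsto' hlim (E := box y) (gauss_frontier y)
  have h4 : (μ₀ : Measure (EuclideanSpace ℝ ι)) (box y) = ∏ i, gaussianReal 0 1 (Set.Iic (y i)) := gauss_box y
  rw [h4] at h3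
  have h5 := (ENNReal.tendsto_toReal (ENNReal.prod_ne_top fun i _ => measure_ne_top _ _)).comp h3
  rw [ENNReal.toReal_prod] at h5
  have h6 : Tendsto (fun N => (cnt a α γ y (N + 1) : ℝ) / ((N + 1 : ℕ) : ℝ)) atTop (𝓝 (∏ i, Phi (y i))) := by
    refine Tendsto.congr' ?_ h5
    have hVp := (tendsto_add_atTop_iff_nat 1).2 hV
    filter_upwards [hVp.eventually_gt_atTop 0] with N hN
    show (law (v N) N (box y)).toReal = _
    rw [law_apply _ _ (box_closed y).measurableSet]
    unfold cnt
    congr 3
    ext x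
    rw [mem_filter, mem_filter]
    apply and_congr_right
    intro _
    have hs : 0 < Real.sqrt (V a (N + 1)) := Real.sqrt_pos.2 hN
    show (∀ i, (fs a (α i * x + γ i) - A a (N + 1)) / Real.sqrt (V a (N + 1)) ≤ y i) ↔ _
    apply forall_congr'
    intro i
    rw [div_le_iff₀ hs]
    constructor <;> intro h <;> linarith
  exact (tendsto_add_atTop_iff_nat 1).1 h6

end Pool.Agent.Helper65.EK
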