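import Pool.Agent.Helper65.EK.Num

set_option autoImplicit false

/-! The limit of the characteristic functions. -/

namespace Pool.Agent.Helper65.EK

open Finset Filter Topology

/-- the choice of the truncation -/
theorem choice {a : ℕ → ℝ} (ha : ∀ p, p.Prime → |a p| ≤ 1) (hV : Tendsto (V a) atTop atTop) :
    ∃ u z : ℕ → ℕ, Tendsto (fun N => (u N : ℝ) / Real.sqrt (V a N)) atTop (𝓝 0) ∧
      (∀ j : ℕ, Tendsto (fun N => (z N : ℝ) ^ j / N) atTop (𝓝 0)) ∧
      ∀ᶠ N in atTop, 2 ≤ z N ∧ z N ≤ N ∧ N ^ 2 < z N ^ (u N + 1) := by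
  set q : ℕ → ℝ := fun N => Real.sqrt (Real.sqrt (V a N)) with hq
  set v : ℕ → ℕ := fun N => ⌊q N⌋₊ with hv
  have hq0 : ∀ N, 0 ≤ q N := fun N => Real.sqrt_nonneg _
  have hqlim : Tendsto q atTop atTop := Real.tendsto_sqrt_atTop.comp (Real.tendsto_sqrt_atTop.comp hV)
  have hvlim : Tendsto v atTop atTop := tendsto_nat_floor_atTop.comp hqlim
  have hvq : ∀ N, (v N : ℝ) ≤ q N := fun N => Nat.floor_le (hq0 N)
  set z : ℕ → ℕ := fun N => ⌊Real.exp (Real.log N / v N)⌋₊ with hz
  have hz1 : ∀ N, (z N : ℝ) ≤ Real.exp (Real.log N / v N) := fun N => Nat.floor_le (Real.exp_pos _).le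
  have hlogN : Tendsto (fun N : ℕ => Real.log N) atTop atTop := Real.tendsto_log_atTop.comp tendsto_natCast_atTop_atTop
  -- growth of the exponent
  have hL : ∀ᶠ N : ℕ in atTop, Real.log 4 * v N ≤ Real.log N := by
    have h1 : ∀ᶠ x : ℝ in atTop, Real.log 4 * Real.sqrt (Real.sqrt (1 + x)) ≤ x := by
      have h2 : ∀ x : ℝ, 15 ≤ x → Real.log 4 * Real.sqrt (Real.sqrt (1 + x)) ≤ x := by
        intro x hx
        have h3 : Real.log 4 ≤ 3 := by
          have := Real.log_le_sub_one_of_pos (show (0 : ℝ) < 4 by norm_num)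
          linarith
        have h4 : Real.sqrt (1 + x) ≤ 1 + x := by
          rw [Real.sqrt_le_left (by linarith)]
          nlinarith
        have h4' : Real.sqrt (Real.sqrt (1 + x)) ≤ Real.sqrt (1 + x) := Real.sqrt_le_sqrt h4
        have h5 : Real.sqrt (1 + x) ≤ x / 3 := by
          rw [Real.sqrt_le_left (by linarith)]
          nlinarith
        have h6 : 0 ≤ Real.sqrt (Real.sqrt (1 + x)) := Real.sqrt_nonneg _
        nlinarith
      filter_upwards [eventually_ge_atTop 15] with x hx using h2 x hx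
    filter_upwards [hlogN.eventually h1] with N hN
    refine le_trans ?_ hN
    apply mul_le_mul_of_nonneg_left _ (Real.log_nonneg (by norm_num))
    refine (hvq N).trans ?_
    exact Real.sqrt_le_sqrt (Real.sqrt_le_sqrt (V_le ha N))
  refine ⟨fun N => 4 * v N, z, ?_, ?_, ?_⟩
  · have h1 : Tendsto (fun N => 4 / q N) atTop (𝓝 0) := hqlim.const_div_atTop 4
    refine squeeze_zero' ?_ ?_ h1
    · filter_upwards with N
      positivity
    · filter_upwards [hqlim.eventually_gt_atTop 0] with N hN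
      have h2 : Real.sqrt (V a N) = q N ^ 2 := (Real.sq_sqrt (Real.sqrt_nonneg _)).symm
      rw [h2, div_le_div_iff₀ (by positivity) hN]
      push_cast
      nlinarith [hvq N, mul_nonneg (sub_nonneg.2 (hvq N)) hN.le]
  · intro j
    have h1 : Tendsto (fun N : ℕ => Real.exp (-(Real.log N / 2))) atTop (𝓝 0) :=
      Real.tendsto_exp_neg_atTop_nhds_zero.comp (hlogN.atTop_div_const (by norm_num))
    refine squeeze_zero' ?_ ?_ h1
    · filter_upwards with N
      positivity
    · filter_upwards [hvlim.eventually_ge_atTop (2 * j + 1), eventually_ge_atTop 1] with N hN hN1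
      have hNr : (0 : ℝ) < N := by exact_mod_cast hN1
      have hlog : 0 ≤ Real.log N := Real.log_nonneg (by exact_mod_cast hN1)
      have hvr : (2 * j + 1 : ℝ) ≤ v N := by exact_mod_cast hN
      have hv0 : (0 : ℝ) < v N := by
        have : (0 : ℝ) ≤ j := Nat.cast_nonneg j
        linarith
      rw [div_le_iff₀ hNr]
      have h2 : (z N : ℝ) ^ j ≤ Real.exp (Real.log N / v N) ^ j := pow_le_pow_left₀ (Nat.cast_nonneg _) (hz1 N) j
      refine h2.trans ?_
      rw [← Real.exp_nat_mul]
      have h3 : Real.exp (-(Real.log N / 2)) * N = Real.exp (Real.log N / 2) := by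
        conv_lhs => rw [← Real.exp_log hNr, ← Real.exp_add, Real.log_exp]
        congr 1
        ring
      rw [h3]
      apply Real.exp_le_exp.2
      rw [mul_div_assoc', div_le_div_iff₀ hv0 (by norm_num)]
      nlinarith
  · filter_upwards [hL, hvlim.eventually_ge_atTop 1, eventually_ge_atTop 1] with N hN hv1 hN1
    have hNr : (0 : ℝ) < N := by exact_mod_cast hN1
    have hv0 : (0 : ℝ) < v N := by exact_mod_cast hv1
    have hv1r : (1 : ℝ) ≤ v N := by exact_mod_cast hv1
    have hlog : 0 ≤ Real.log N := Real.log_nonneg (by exact_mod_cast hN1)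
    set L := Real.log N / v N with hLdef
    have hL4 : Real.log 4 ≤ L := by
      rw [hLdef, le_div_iff₀ hv0]
      exact hN
    have ht : 2 ≤ Real.exp (L / 2) := by
      have h1 : Real.log 2 ≤ L / 2 := by
        have : Real.log 4 = 2 * Real.log 2 := by
          rw [show (4 : ℝ) = 2 ^ 2 by norm_num, Real.log_pow]
          push_cast
          ring
        linarith
      calc (2 : ℝ) = Real.exp (Real.log 2) := (Real.exp_log (by norm_num)).symm
        _ ≤ _ := Real.exp_le_exp.2 h1
    have hsq : Real.exp L = Real.exp (L / 2) ^ 2 := by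
      rw [← Real.exp_nat_mul]
      congr 1
      push_cast
      ring
    have hzl : Real.exp (L / 2) ≤ z N := by
      have h1 : Real.exp L < z N + 1 := Nat.lt_floor_add_one _
      nlinarith
    have hz2 : 2 ≤ z N := by
      have : (2 : ℝ) ≤ z N := ht.trans hzl
      exact_mod_cast this
    refine ⟨hz2, ?_, ?_⟩
    · have h1 : (z N : ℝ) ≤ N := by
        refine (hz1 N).trans ?_
        conv_rhs => rw [← Real.exp_log hNr]
        apply Real.exp_le_exp.2
        exact div_le_self hlog hv1r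
      exact_mod_cast h1
    · have h1 : (N : ℝ) ^ 2 ≤ (z N : ℝ) ^ (4 * v N) := by
        calc (N : ℝ) ^ 2 = Real.exp (L / 2) ^ (4 * v N) := by
              rw [← Real.exp_nat_mul]
              conv_lhs => rw [← Real.exp_log hNr, ← Real.exp_nat_mul]
              congr 1
              push_cast
              rw [hLdef]
              field_simp
              ring
          _ ≤ _ := pow_le_pow_left₀ (Real.exp_pos _).le hzl _
      have h2 : N ^ 2 ≤ z N ^ (4 * v N) := by exact_mod_cast h1
      refine lt_of_le_of_lt h2 ?_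
      exact Nat.pow_lt_pow_right hz2 (by omega)

lemma E_dist {N : ℕ} (hN : 1 ≤ N) {f g : ℕ → ℂ} {C : ℝ} (h : ∀ x < N, ‖f x - g x‖ ≤ C) : ‖E N f - E N g‖ ≤ C := by
  have hNr : (0 : ℝ) < N := by exact_mod_cast hN
  unfold E
  rw [← sub_div, norm_div, RCLike.norm_natCast, div_le_iff₀ hNr, ← sum_sub_distrib]
  refine (norm_sum_le _ _).trans ((sum_le_sum (g := fun _ => C) fun x hx => h x (mem_range.1 hx)).trans ?_)
  rw [sum_const, card_range, nsmul_eq_mul, mul_comm]

lemma cexp_dist (a b : ℝ) : ‖Complex.exp (a * Complex.I) - Complex.exp (b * Complex.I)‖ ≤ |a - b| := by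
  have h1 : Complex.exp (a * Complex.I) - Complex.exp (b * Complex.I) =
      Complex.exp (b * Complex.I) * (Complex.exp (((a - b : ℝ) : ℂ) * Complex.I) - 1) := by
    rw [mul_sub, ← Complex.exp_add, mul_one]
    congr 2
    push_cast
    ring
  rw [h1, norm_mul, Complex.norm_exp_ofReal_mul_I, one_mul]
  have h2 := rem_le 1 (a - b)
  unfold rem at h2
  simpa using h2

variable {ι : Type*} [Fintype ι]

/-- the normalised linear combination -/
noncomputable def Z (a : ℕ → ℝ) (α γ : ι → ℕ) (t : ι → ℝ) (N x : ℕ) : ℝ :=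
  (∑ i, t i * (fs a (α i * x + γ i) - A a N)) / Real.sqrt (V a N)

theorem char_lim {a : ℕ → ℝ} (ha : ∀ p, p.Prime → |a p| ≤ 1) (hV : Tendsto (V a) atTop atTop) {α γ : ι → ℕ}
    (hf : Forms α γ) (t : ι → ℝ) :
    Tendsto (fun N => E N (fun x => Complex.exp ((Z a α γ t N x : ℝ) * Complex.I))) atTop
      (𝓝 (Complex.exp (-((∑ i, t i ^ 2) / 2 : ℝ)))) := by
  obtain ⟨u, z, hu, hz, hev⟩ := choice ha hV
  set w : ℕ := ∑ i, ∑ j, α i * γ j with hw
  have hww : ∀ i j, α i * γ j ≤ w := by
    intro i j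
    rw [hw]
    refine le_trans ?_ (single_le_sum (f := fun i => ∑ j, α i * γ j) (fun _ _ => Nat.zero_le _) (mem_univ i))
    exact single_le_sum (f := fun j => α i * γ j) (fun _ _ => Nat.zero_le _) (mem_univ j)
  set B : ℕ → ℝ := fun N => Real.sqrt (V a N) with hB
  have hBlim : Tendsto B atTop atTop := Real.tendsto_sqrt_atTop.comp hV
  set τ : ℝ := 1 + ∑ i, |t i| with hτ
  have ht0 : 0 ≤ ∑ i, |t i| := sum_nonneg fun _ _ => abs_nonneg _
  set W : ℝ := ∑ i, t i ^ 2 with hW
  have hW0 : 0 ≤ W := sum_nonneg fun _ _ => sq_nonneg _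
  set P : ℕ → Finset ℕ := fun N => (Pr (z N)).filter (fun p => w < p) with hP
  -- the limit of the variances
  have hvar : Tendsto (fun N => (∑ p ∈ P N, σ2 (Y a α γ t) p) / (2 * B N ^ 2)) atTop (𝓝 (W / 2)) := by
    have hBB : ∀ N, B N ^ 2 = V a N := fun N => Real.sq_sqrt (V_nonneg a N)
    have g1 : Tendsto (fun N => W / 2 - (W * ((u N : ℝ) / B N * (1 / B N) + (1 + w) / V a N) + 2 * (∑ i, t i) ^ 2 / V a N) / 2)
        atTop (𝓝 (W / 2)) := by
      have e1 : Tendsto (fun N => (u N : ℝ) / B N * (1 / B N)) atTop (𝓝 0) := by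
        have := hu.mul (hBlim.const_div_atTop 1)
        simpa using this
      have e2 : Tendsto (fun N => (1 + (w : ℝ)) / V a N) atTop (𝓝 0) := hV.const_div_atTop _
      have e3 : Tendsto (fun N => 2 * (∑ i, t i) ^ 2 / V a N) atTop (𝓝 0) := hV.const_div_atTop _
      have e4 := (((e1.add e2).const_mul W).add e3).div_const 2
      have e5 := (tendsto_const_nhds (x := W / 2)).sub e4
      simpa using e5
    refine tendsto_of_tendsto_of_tendsto_of_le_of_le' g1 tendsto_const_nhds ?_ ?_
    · filter_upwards [hev, hV.eventually_gt_atTop 0] with N hN hVN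
      obtain ⟨h1, h2, h3⟩ := hN
      have h4 := (var_sum ha hf hww t (z N)).2
      have h5 := V_diff ha h1 h2 (lt_of_le_of_lt (Nat.le_self_pow (by norm_num) N) h3)
      rw [hBB, le_div_iff₀ (by positivity)]
      have hBN : 0 < B N := Real.sqrt_pos.2 hVN
      have e6 : (u N : ℝ) / B N * (1 / B N) = u N / V a N := by
        rw [← hBB N]
        field_simp
      have e7 : (W / 2 - (W * ((u N : ℝ) / B N * (1 / B N) + (1 + w) / V a N) + 2 * (∑ i, t i) ^ 2 / V a N) / 2) * (2 * V a N) =
          W * (V a N - (u N + 1) - w) - 2 * (∑ i, t i) ^ 2 := by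
        rw [e6]
        field_simp
        ring
      rw [e7]
      refine le_trans ?_ h4
      have : W * (V a N - (u N + 1) - w) ≤ W * (V a (z N) - w) := mul_le_mul_of_nonneg_left (by linarith) hW0
      linarith
    · filter_upwards [hev, hV.eventually_gt_atTop 0] with N hN hVN
      obtain ⟨h1, h2, h3⟩ := hN
      have h4 := (var_sum ha hf hww t (z N)).1
      have h5 := V_mono a h2
      rw [hBB, div_le_div_iff₀ (by positivity) (by norm_num)]
      have : W * V a (z N) ≤ W * V a N := mul_le_mul_of_nonneg_left h5 hW0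
      have h6 : ∑ p ∈ P N, σ2 (Y a α γ t) p ≤ W * V a N := h4.trans this
      linarith
  have hexp : Tendsto (fun N => Complex.exp (-((∑ p ∈ P N, σ2 (Y a α γ t) p) / (2 * B N ^ 2) : ℝ))) atTop
      (𝓝 (Complex.exp (-((W / 2 : ℝ) : ℂ)))) :=
    (Complex.continuous_exp.tendsto _).comp (((Complex.continuous_ofReal.tendsto _).comp hvar).neg)
  rw [Metric.tendsto_atTop] at hexp ⊢
  intro ε hε
  -- the order of the expansion
  obtain ⟨m, hm⟩ : ∃ m : ℕ, 4 * Real.exp (4 * W) / 2 ^ (2 * m) < ε / 4 := by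
    have h1 : Tendsto (fun m : ℕ => 4 * Real.exp (4 * W) / (2 : ℝ) ^ (2 * m)) atTop (𝓝 0) := by
      have h2 : Tendsto (fun m : ℕ => ((4 : ℝ)) ^ m) atTop atTop := tendsto_pow_atTop_atTop_of_one_lt (by norm_num)
      have h3 := h2.const_div_atTop (4 * Real.exp (4 * W))
      refine h3.congr fun m => ?_
      rw [pow_mul]
      norm_num
    exact (h1.eventually (gt_mem_nhds (by positivity))).exists
  -- the errors
  have hE1 : Tendsto (fun N => (∑ i, |t i|) * (2 * w + 2 * u N + 1) / B N) atTop (𝓝 0) := by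
    have e1 := (hBlim.const_div_atTop (2 * (w : ℝ) + 1)).add (hu.const_mul 2)
    have e2 := e1.const_mul (∑ i, |t i|)
    simp only [mul_zero, add_zero] at e2
    refine e2.congr fun N => ?_
    ring
  have hE2 : Tendsto (fun N => 4 * (((2 * m : ℕ) : ℝ) + 1) * τ ^ (2 * m) * (z N : ℝ) ^ (2 * (2 * m)) / N) atTop (𝓝 0) := by
    have e1 := (hz (2 * (2 * m))).const_mul (4 * (((2 * m : ℕ) : ℝ) + 1) * τ ^ (2 * m))
    rw [mul_zero] at e1
    refine e1.congr fun N => ?_
    ring
  have hE3 : Tendsto (fun N => 2 * τ * W / B N) atTop (𝓝 0) := hBlim.const_div_atTop _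
  have hEE := (hE1.add hE2).add hE3
  simp only [add_zero] at hEE
  obtain ⟨N₁, hN₁⟩ := hexp (ε / 4) (by positivity)
  have hfin : ∀ᶠ N : ℕ in atTop, dist (E N (fun x => Complex.exp ((Z a α γ t N x : ℝ) * Complex.I)))
      (Complex.exp (-((W / 2 : ℝ) : ℂ))) < ε := by
    filter_upwards [hEE.eventually (gt_mem_nhds (show 0 < ε / 4 by positivity)), hev, eventually_ge_atTop N₁,
      eventually_ge_atTop 1, hBlim.eventually_ge_atTop (2 * τ), eventually_ge_atTop (2 * w + 1)] with N h1 h2 h3 h4 h5 h6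
    obtain ⟨z2, zN, zu⟩ := h2
    have hNu : N < z N ^ (u N + 1) := lt_of_le_of_lt (Nat.le_self_pow (by norm_num) N) zu
    have hτ1 : 1 ≤ τ := by rw [hτ]; linarith
    have hB0 : 0 < B N := by linarith
    have hmod := mod_forms ha hf hww t (z := z N) (by omega)
    have hWB : ∑ p ∈ P N, σ2 (Y a α γ t) p ≤ W * B N ^ 2 := by
      rw [show B N ^ 2 = V a N from Real.sq_sqrt (V_nonneg a N)]
      exact (var_sum ha hf hww t (z N)).1.trans (mul_le_mul_of_nonneg_left (V_mono a zN) hW0)
    have k1 := char_close hmod h5 hWB (k := 2 * m) (even_two_mul m) h4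
    have k2 := model_char hmod h5 hWB
    have k3 := hN₁ N h3
    have k0 : ‖E N (fun x => Complex.exp ((Z a α γ t N x : ℝ) * Complex.I)) -
        E N (fun x => Complex.exp (((∑ p ∈ P N, Y a α γ t p x) / B N : ℝ) * Complex.I))‖ ≤
        (∑ i, |t i|) * (2 * w + 2 * u N + 1) / B N := by
      apply E_dist h4
      intro x hx
      refine (cexp_dist _ _).trans ?_
      unfold Z
      rw [← sub_div, abs_div, abs_of_pos hB0]
      apply div_le_div_of_nonneg_right _ hB0.le
      apply shift_forms ha t z2 zN hNu x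
      intro i
      have e1 := hf.c1 i
      have e2 := hww i i
      have e0 := hf.a1 i
      have e3 : α i ≤ w := by nlinarith
      have e4 : γ i ≤ w := by nlinarith
      constructor
      · omega
      · refine lt_of_le_of_lt ?_ zu
        nlinarith
    rw [dist_eq_norm] at k3 ⊢
    have k4 : ‖E N (fun x => Complex.exp ((Z a α γ t N x : ℝ) * Complex.I)) - Complex.exp (-((W / 2 : ℝ) : ℂ))‖ ≤
        (∑ i, |t i|) * (2 * w + 2 * u N + 1) / B N +
        (4 * (((2 * m : ℕ) : ℝ) + 1) * τ ^ (2 * m) * (z N : ℝ) ^ (2 * (2 * m)) / N + 4 * Real.exp (4 * W) / 2 ^ (2 * m)) +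
        2 * τ * W / B N + ε / 4 := by
      refine (norm_sub_le_norm_sub_add_norm_sub _ (Complex.exp (-((∑ p ∈ P N, σ2 (Y a α γ t) p) / (2 * B N ^ 2) : ℝ))) _).trans
        (add_le_add ?_ k3.le)
      refine (norm_sub_le_norm_sub_add_norm_sub _ (E (∏ p ∈ P N, p) (fun x => Complex.exp (((∑ p ∈ P N, Y a α γ t p x) / B N : ℝ) *
        Complex.I))) _).trans (add_le_add ?_ k2)
      exact (norm_sub_le_norm_sub_add_norm_sub _ (E N (fun x => Complex.exp (((∑ p ∈ P N, Y a α γ t p x) / B N : ℝ) *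
        Complex.I))) _).trans (add_le_add k0 k1)
    linarith
  exact eventually_atTop.1 hfin

end Pool.Agent.Helper65.EK
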