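import Pool.Agent.Helper65.EK.Tay

set_option autoImplicit false

/-! Sums over the prime factors of the values of linear forms. -/

namespace Pool.Agent.Helper65.EK

open Finset Filter Topology

/-- the primes up to `x` -/
def Pr (x : ℕ) : Finset ℕ := (Icc 1 x).filter Nat.Prime

lemma mem_Pr {x p : ℕ} : p ∈ Pr x ↔ p.Prime ∧ p ≤ x := by
  unfold Pr
  rw [mem_filter, mem_Icc]
  constructor
  · rintro ⟨⟨_, h1⟩, h2⟩
    exact ⟨h2, h1⟩
  · rintro ⟨h1, h2⟩
    exact ⟨⟨h1.pos, h2⟩, h1⟩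

/-- the strongly additive function with the values `a p` at the primes -/
noncomputable def fs (a : ℕ → ℝ) (n : ℕ) : ℝ := ∑ p ∈ n.primeFactors, a p

/-- the mean value -/
noncomputable def A (a : ℕ → ℝ) (x : ℕ) : ℝ := ∑ p ∈ Pr x, a p / p

/-- the variance -/
noncomputable def V (a : ℕ → ℝ) (x : ℕ) : ℝ := ∑ p ∈ Pr x, a p ^ 2 / p

lemma V_nonneg (a : ℕ → ℝ) (x : ℕ) : 0 ≤ V a x := by
  unfold V
  exact sum_nonneg fun p _ => div_nonneg (sq_nonneg _) (Nat.cast_nonneg _)

lemma Pr_mono {x y : ℕ} (h : x ≤ y) : Pr x ⊆ Pr y := fun p hp => by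
  rw [mem_Pr] at hp ⊢
  exact ⟨hp.1, hp.2.trans h⟩

lemma V_mono (a : ℕ → ℝ) {x y : ℕ} (h : x ≤ y) : V a x ≤ V a y := by
  unfold V
  exact sum_le_sum_of_subset_of_nonneg (Pr_mono h) fun p _ _ => div_nonneg (sq_nonneg _) (Nat.cast_nonneg _)

lemma card_Pr (x : ℕ) : (Pr x).card ≤ x := by
  unfold Pr
  refine (card_filter_le _ _).trans ?_
  rw [Nat.card_Icc]
  omega

/-- the number of the large prime factors -/
lemma card_big {y z u : ℕ} (hz : 2 ≤ z) (hy : 1 ≤ y) (h : y < z ^ (u + 1)) :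
    (y.primeFactors.filter (fun p => z < p)).card ≤ u := by
  have h1 : z ^ (y.primeFactors.filter (fun p => z < p)).card ≤ y := by
    calc z ^ (y.primeFactors.filter (fun p => z < p)).card = ∏ p ∈ y.primeFactors.filter (fun p => z < p), z := by
          rw [prod_const]
      _ ≤ ∏ p ∈ y.primeFactors.filter (fun p => z < p), p := by
          apply prod_le_prod' 
          intro p hp
          exact (mem_filter.1 hp).2.le
      _ ≤ ∏ p ∈ y.primeFactors, p := by
          apply prod_le_prod_of_subset_of_one_le' (filter_subset _ _)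
          intro p hp _
          exact (Nat.prime_of_mem_primeFactors hp).pos
      _ ≤ y := Nat.le_of_dvd hy (Nat.prod_primeFactors_dvd y)
  have h2 := lt_of_le_of_lt h1 h
  have h3 := (Nat.pow_lt_pow_iff_right (by omega : 1 < z)).1 h2
  omega

/-- reciprocals of large primes -/
lemma recip_le {N z u : ℕ} (hz : 2 ≤ z) (hN : 1 ≤ N) (h : N < z ^ (u + 1)) :
    ∑ p ∈ (Pr N).filter (fun p => z < p), (1 : ℝ) / p ≤ u + 1 := by
  have hNr : (0 : ℝ) < N := by exact_mod_cast hN
  have h1 : ∑ y ∈ Icc 1 N, ((y.primeFactors.filter (fun p => z < p)).card : ℝ) ≤ N * u := by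
    refine (sum_le_sum (g := fun _ => (u : ℝ)) fun y hy => ?_).trans ?_
    · rw [mem_Icc] at hy
      exact_mod_cast card_big hz hy.1 (lt_of_le_of_lt hy.2 h)
    · rw [sum_const, Nat.card_Icc, Nat.add_sub_cancel, nsmul_eq_mul]
  have h2 : ∑ y ∈ Icc 1 N, ((y.primeFactors.filter (fun p => z < p)).card : ℝ) =
      ∑ p ∈ (Pr N).filter (fun p => z < p), (((Icc 1 N).filter (fun y => p ∣ y)).card : ℝ) := by
    have e1 : ∀ y ∈ Icc 1 N, ((y.primeFactors.filter (fun p => z < p)).card : ℝ) =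
        ∑ p ∈ (Pr N).filter (fun p => z < p), if p ∣ y then (1 : ℝ) else 0 := by
      intro y hy
      rw [mem_Icc] at hy
      rw [← sum_filter, sum_const, nsmul_eq_mul, mul_one]
      congr 1
      congr 1
      ext p
      rw [mem_filter, mem_filter, mem_filter, mem_Pr, Nat.mem_primeFactors]
      constructor
      · rintro ⟨⟨g1, g2, _⟩, g4⟩
        exact ⟨⟨⟨g1, (Nat.le_of_dvd hy.1 g2).trans hy.2⟩, g4⟩, g2⟩
      · rintro ⟨⟨⟨g1, _⟩, g4⟩, g2⟩
        exact ⟨⟨g1, g2, by omega⟩, g4⟩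
    rw [sum_congr rfl e1, sum_comm]
    apply sum_congr rfl
    intro p _
    rw [← sum_filter, sum_const, nsmul_eq_mul, mul_one]
  rw [h2] at h1
  have h3 : ∀ p ∈ (Pr N).filter (fun p => z < p), (N : ℝ) * (1 / p) - 1 ≤ (((Icc 1 N).filter (fun y => p ∣ y)).card : ℝ) := by
    intro p hp
    rw [mem_filter, mem_Pr] at hp
    have hp0 : 0 < p := hp.1.1.pos
    have e1 : (Icc 1 N).filter (fun y => p ∣ y) = (Ioc 0 N).filter (fun y => p ∣ y) := by
      ext y
      rw [mem_filter, mem_filter, mem_Icc, mem_Ioc]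
      constructor <;> rintro ⟨⟨_, _⟩, _⟩ <;> refine ⟨⟨?_, ?_⟩, ?_⟩ <;> first | assumption | omega
    rw [e1, Nat.Ioc_filter_dvd_card_eq_div]
    have e2 : (N : ℝ) / p < ((N / p : ℕ) : ℝ) + 1 := by
      have hpr : (0 : ℝ) < p := by exact_mod_cast hp0
      rw [div_lt_iff₀ hpr]
      have := Nat.lt_div_mul_add hp0 (a := N)
      have e3 : N < (N / p + 1) * p := by
        rw [add_mul, one_mul]
        exact this
      exact_mod_cast e3
    rw [mul_one_div]
    linarith
  have h4 := (sum_le_sum h3).trans h1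
  rw [sum_sub_distrib, ← mul_sum, sum_const, nsmul_eq_mul, mul_one] at h4
  have h5 : (((Pr N).filter (fun p => z < p)).card : ℝ) ≤ N := by
    exact_mod_cast (card_filter_le _ _).trans (card_Pr N)
  have h6 : (N : ℝ) * ∑ p ∈ (Pr N).filter (fun p => z < p), (1 : ℝ) / p ≤ N * (u + 1) := by nlinarith
  exact le_of_mul_le_mul_left h6 hNr

lemma abs_one {a : ℕ → ℝ} (ha : ∀ p, p.Prime → |a p| ≤ 1) {x p : ℕ} (hp : p ∈ Pr x) : |a p| ≤ 1 := ha p (mem_Pr.1 hp).1

lemma split_Pr {z N : ℕ} (hz : z ≤ N) (F : ℕ → ℝ) :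
    ∑ p ∈ Pr N, F p = ∑ p ∈ Pr z, F p + ∑ p ∈ (Pr N).filter (fun p => z < p), F p := by
  rw [← sum_filter_add_sum_filter_not (Pr N) (fun p => z < p), add_comm]
  congr 1
  apply sum_congr _ fun _ _ => rfl
  ext p
  rw [mem_filter, mem_Pr, mem_Pr]
  constructor
  · rintro ⟨⟨h1, _⟩, h3⟩
    exact ⟨h1, by omega⟩
  · rintro ⟨h1, h2⟩
    exact ⟨⟨h1, by omega⟩, by omega⟩

lemma A_diff {a : ℕ → ℝ} (ha : ∀ p, p.Prime → |a p| ≤ 1) {N z u : ℕ} (hz : 2 ≤ z) (hzN : z ≤ N) (h : N < z ^ (u + 1)) :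
    |A a N - A a z| ≤ u + 1 := by
  unfold A
  rw [split_Pr hzN, add_sub_cancel_left]
  refine (abs_sum_le_sum_abs _ _).trans (le_trans (sum_le_sum fun p hp => ?_) (recip_le hz (by omega) h))
  rw [mem_filter] at hp
  rw [abs_div, Nat.abs_cast]
  exact div_le_div_of_nonneg_right (abs_one ha hp.1) (Nat.cast_nonneg _)

lemma V_diff {a : ℕ → ℝ} (ha : ∀ p, p.Prime → |a p| ≤ 1) {N z u : ℕ} (hz : 2 ≤ z) (hzN : z ≤ N) (h : N < z ^ (u + 1)) :
    V a N - V a z ≤ u + 1 := by
  unfold V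
  rw [split_Pr hzN, add_sub_cancel_left]
  refine le_trans (sum_le_sum fun p hp => ?_) (recip_le hz (by omega) h)
  rw [mem_filter] at hp
  apply div_le_div_of_nonneg_right _ (Nat.cast_nonneg _)
  rw [← sq_abs]
  exact pow_le_one₀ (abs_nonneg _) (abs_one ha hp.1)

lemma harm (x : ℕ) : ∑ n ∈ Icc 1 x, (1 : ℝ) / n ≤ 1 + Real.log x := by
  have h1 := harmonic_le_one_add_log x
  rw [harmonic_eq_sum_Icc] at h1
  push_cast at h1
  simpa [one_div] using h1

lemma V_le {a : ℕ → ℝ} (ha : ∀ p, p.Prime → |a p| ≤ 1) (x : ℕ) : V a x ≤ 1 + Real.log x := by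
  refine le_trans ?_ (harm x)
  unfold V Pr
  rw [sum_filter]
  apply sum_le_sum
  intro n _
  split_ifs with hn
  · apply div_le_div_of_nonneg_right _ (Nat.cast_nonneg _)
    rw [← sq_abs]
    exact pow_le_one₀ (abs_nonneg _) (ha n hn)
  · positivity

lemma sq_sum (x : ℕ) : ∑ n ∈ Icc 1 (x + 1), (1 : ℝ) / n ^ 2 ≤ 2 - 1 / (x + 1) := by
  induction x with
  | zero => norm_num
  | succ x ih =>
    rw [sum_Icc_succ_top (by omega)]
    refine (add_le_add ih le_rfl).trans ?_
    push_cast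
    have hx : (0 : ℝ) ≤ x := Nat.cast_nonneg x
    have e : (1 : ℝ) / (x + 1) - 1 / (x + 1 + 1) - 1 / (x + 1 + 1) ^ 2 = 1 / ((x + 1) * (x + 1 + 1) ^ 2) := by
      field_simp
      ring
    have e2 : 0 ≤ (1 : ℝ) / ((x + 1) * (x + 1 + 1) ^ 2) := by positivity
    linarith

lemma sq_recip (x w : ℕ) : ∑ p ∈ (Pr x).filter (fun p => w < p), (1 : ℝ) / p ^ 2 ≤ 2 := by
  refine le_trans ?_ ((sq_sum x).trans (by
    have : (0 : ℝ) ≤ 1 / (x + 1) := by positivity
    linarith))
  apply sum_le_sum_of_subset_of_nonneg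
  · intro p hp
    rw [mem_filter, mem_Pr] at hp
    rw [mem_Icc]
    exact ⟨hp.1.1.pos, by omega⟩
  · intro _ _ _
    positivity

/-! ### the linear forms -/

/-- a system of linear forms with positive coefficients, pairwise not proportional -/
structure Forms {ι : Type*} (α γ : ι → ℕ) : Prop where
  a1 : ∀ i, 1 ≤ α i
  c1 : ∀ i, 1 ≤ γ i
  det : ∀ i j, i ≠ j → α i * γ j ≠ α j * γ i

/-- indicator of divisibility -/
def dv (p y : ℕ) : ℝ := if p ∣ y then 1 else 0

lemma dv_per (p α γ x : ℕ) : dv p (α * (x + p) + γ) = dv p (α * x + γ) := by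
  unfold dv
  have : p ∣ α * (x + p) + γ ↔ p ∣ α * x + γ := by
    rw [mul_add, add_right_comm]
    exact (Nat.dvd_add_left (dvd_mul_left p α))
  simp only [this]

lemma dv_sum {p α γ : ℕ} (hp : p.Prime) (h : ¬ p ∣ α) : ∑ x ∈ range p, dv p (α * x + γ) = 1 := by
  classical
  unfold dv
  rw [← sum_filter, sum_const, nsmul_eq_mul, mul_one]
  have hne : NeZero p := ⟨hp.ne_zero⟩
  have hfact : Fact p.Prime := ⟨hp⟩
  have ha : (α : ZMod p) ≠ 0 := by
    rw [Ne, ZMod.natCast_eq_zero_iff]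
    exact h
  have h1 : (range p).filter (fun x => p ∣ α * x + γ) = {(-(γ : ZMod p) / α).val} := by
    ext x
    rw [mem_filter, mem_range, mem_singleton]
    have h2 : (p ∣ α * x + γ) ↔ (x : ZMod p) = -(γ : ZMod p) / α := by
      rw [← ZMod.natCast_eq_zero_iff, eq_div_iff ha]
      push_cast
      constructor
      · intro h3
        linear_combination h3
      · intro h3
        linear_combination h3
    rw [h2]
    constructor
    · rintro ⟨h3, h4⟩
      rw [← h4, ZMod.val_natCast, Nat.mod_eq_of_lt h3]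
    · rintro rfl
      exact ⟨ZMod.val_lt _, ZMod.natCast_zmod_val _⟩
  rw [h1, card_singleton]
  norm_num

lemma dv_mul {ι : Type*} {α γ : ι → ℕ} (hf : Forms α γ) {p w : ℕ} (hw : ∀ i j, α i * γ j ≤ w) (hp : w < p) {i j : ι} (hij : i ≠ j)
    (x : ℕ) : dv p (α i * x + γ i) * dv p (α j * x + γ j) = 0 := by
  unfold dv
  by_cases h1 : p ∣ α i * x + γ i
  · by_cases h2 : p ∣ α j * x + γ j
    · exfalso
      have h3 : p ∣ α j * (α i * x + γ i) := Dvd.dvd.mul_left h1 _
      have h4 : p ∣ α i * (α j * x + γ j) := Dvd.dvd.mul_left h2 _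
      have h5 : α j * (α i * x + γ i) = α i * α j * x + α j * γ i := by ring
      have h6 : α i * (α j * x + γ j) = α i * α j * x + α i * γ j := by ring
      rw [h5] at h3
      rw [h6] at h4
      have h7 := hf.det i j hij
      have h8 := hw i j
      have h9 := hw j i
      have h10 : (p : ℤ) ∣ (α j * γ i : ℤ) - (α i * γ j : ℤ) := by
        have g1 : (p : ℤ) ∣ ((α i * α j * x + α j * γ i : ℕ) : ℤ) := by exact_mod_cast h3
        have g2 : (p : ℤ) ∣ ((α i * α j * x + α i * γ j : ℕ) : ℤ) := by exact_mod_cast h4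
        have g3 := dvd_sub g1 g2
        push_cast at g3
        rwa [add_sub_add_left_eq_sub] at g3
      have h11 : |(α j * γ i : ℤ) - (α i * γ j : ℤ)| < p := by
        have g1 : (α i * γ j : ℤ) ≤ w := by exact_mod_cast h8
        have g2 : (α j * γ i : ℤ) ≤ w := by exact_mod_cast h9
        have g3 : (0 : ℤ) ≤ α i * γ j := by positivity
        have g4 : (0 : ℤ) ≤ α j * γ i := by positivity
        have g5 : (w : ℤ) < p := by exact_mod_cast hp
        rw [abs_lt]
        constructor <;> linarith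
      have h12 := Int.eq_zero_of_abs_lt_dvd h10 h11
      apply h7
      have : (α i * γ j : ℤ) = α j * γ i := by linarith
      exact_mod_cast this
    · rw [if_neg h2, mul_zero]
  · rw [if_neg h1, zero_mul]

lemma dv_sq (p y : ℕ) : dv p y * dv p y = dv p y := by
  unfold dv
  split_ifs <;> norm_num

variable {ι : Type*} [Fintype ι]

/-- the centred function -/
noncomputable def Y (a : ℕ → ℝ) (α γ : ι → ℕ) (t : ι → ℝ) (p x : ℕ) : ℝ := a p * ∑ i, t i * (dv p (α i * x + γ i) - 1 / p)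

lemma Y_sq_sum {a : ℕ → ℝ} {α γ : ι → ℕ} (hf : Forms α γ) {w p : ℕ} (hp : p.Prime) (hw : ∀ i j, α i * γ j ≤ w) (hwp : w < p)
    (t : ι → ℝ) : σ2 (Y a α γ t) p = (∑ i, t i ^ 2) * (a p ^ 2 / p) - (∑ i, t i) ^ 2 * (a p ^ 2 / p ^ 2) := by
  classical
  have hp0 : (p : ℝ) ≠ 0 := by exact_mod_cast hp.ne_zero
  have hpa : ∀ i, ¬ p ∣ α i := by
    intro i h
    have h1 := Nat.le_of_dvd (hf.a1 i) h
    have h2 := hw i i
    have h3 := hf.c1 i
    nlinarith
  have h1 : ∀ x, Y a α γ t p x = a p * (∑ i, t i * dv p (α i * x + γ i) - (∑ i, t i) / p) := by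
    intro x
    unfold Y
    congr 1
    simp only [mul_sub]
    rw [sum_sub_distrib, sum_div]
    congr 1
    apply sum_congr rfl
    intro i _
    ring
  have h2 : ∀ x, (∑ i, t i * dv p (α i * x + γ i)) ^ 2 = ∑ i, t i ^ 2 * dv p (α i * x + γ i) := by
    intro x
    rw [sq, sum_mul_sum]
    apply sum_congr rfl
    intro i _
    rw [sum_eq_single i]
    · have := dv_sq p (α i * x + γ i)
      calc t i * dv p (α i * x + γ i) * (t i * dv p (α i * x + γ i)) =
          t i ^ 2 * (dv p (α i * x + γ i) * dv p (α i * x + γ i)) := by ring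
        _ = _ := by rw [this]
    · intro j _ hj
      have := dv_mul hf hw hwp (Ne.symm hj) x
      calc t i * dv p (α i * x + γ i) * (t j * dv p (α j * x + γ j)) =
          t i * t j * (dv p (α i * x + γ i) * dv p (α j * x + γ j)) := by ring
        _ = 0 := by rw [this, mul_zero]
    · intro h
      exact absurd (mem_univ i) h
  have h3 : ∑ x ∈ range p, (∑ i, t i * dv p (α i * x + γ i)) = ∑ i, t i := by
    rw [sum_comm]
    apply sum_congr rfl
    intro i _
    rw [← mul_sum, dv_sum hp (hpa i), mul_one]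
  have h4 : ∑ x ∈ range p, (∑ i, t i ^ 2 * dv p (α i * x + γ i)) = ∑ i, t i ^ 2 := by
    rw [sum_comm]
    apply sum_congr rfl
    intro i _
    rw [← mul_sum, dv_sum hp (hpa i), mul_one]
  have h5 : ∀ x, Y a α γ t p x ^ 2 = a p ^ 2 * (∑ i, t i ^ 2 * dv p (α i * x + γ i)) -
      2 * (a p ^ 2 * ((∑ i, t i) / p)) * (∑ i, t i * dv p (α i * x + γ i)) + a p ^ 2 * ((∑ i, t i) / p) ^ 2 := by
    intro x
    rw [h1, ← h2]
    ring
  unfold σ2 E
  simp only [h5]
  rw [sum_add_distrib, sum_sub_distrib, ← mul_sum, ← mul_sum, h3, h4, sum_const, card_range, nsmul_eq_mul]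
  field_simp
  ring

lemma Y_mean {a : ℕ → ℝ} {α γ : ι → ℕ} {p : ℕ} (hp : p.Prime) (hpa : ∀ i, ¬ p ∣ α i) (t : ι → ℝ) :
    ∑ x ∈ range p, Y a α γ t p x = 0 := by
  unfold Y
  rw [← mul_sum, sum_comm]
  have : ∀ i, ∑ x ∈ range p, t i * (dv p (α i * x + γ i) - 1 / p) = 0 := by
    intro i
    rw [← mul_sum, sum_sub_distrib, dv_sum hp (hpa i), sum_const, card_range, nsmul_eq_mul,
      mul_one_div_cancel (by exact_mod_cast hp.ne_zero), sub_self, mul_zero]
  rw [sum_congr rfl fun i _ => this i, sum_const_zero, mul_zero]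

/-- the setting of the comparison -/
theorem mod_forms {a : ℕ → ℝ} (ha : ∀ p, p.Prime → |a p| ≤ 1) {α γ : ι → ℕ} (hf : Forms α γ) {w : ℕ}
    (hw : ∀ i j, α i * γ j ≤ w) (t : ι → ℝ) {z : ℕ} (hz : 1 ≤ z) :
    Mod ((Pr z).filter (fun p => w < p)) z (Y a α γ t) (1 + ∑ i, |t i|) := by
  have hpr : ∀ p ∈ (Pr z).filter (fun p => w < p), p.Prime ∧ p ≤ z ∧ w < p := by
    intro p hp
    rw [mem_filter, mem_Pr] at hp
    exact ⟨hp.1.1, hp.1.2, hp.2⟩
  refine ⟨fun p hp => (hpr p hp).1, fun p hp => (hpr p hp).2.1, hz, ?_, ?_, ?_, ?_⟩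
  · intro p _ x
    unfold Y
    congr 1
    apply sum_congr rfl
    intro i _
    rw [dv_per]
  · intro p hp x
    have hp1 := (hpr p hp).1
    unfold Y
    rw [abs_mul]
    have h0 : ∀ i, |t i * (dv p (α i * x + γ i) - 1 / p)| ≤ |t i| := by
      intro i
      rw [abs_mul]
      apply mul_le_of_le_one_right (abs_nonneg _)
      have h1 : (1 : ℝ) / p ≤ 1 := by
        rw [div_le_one (by exact_mod_cast hp1.pos)]
        exact_mod_cast hp1.pos
      have h2 : (0 : ℝ) ≤ 1 / p := by positivity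
      unfold dv
      split_ifs <;> rw [abs_le] <;> constructor <;> linarith
    have h3 : |∑ i, t i * (dv p (α i * x + γ i) - 1 / p)| ≤ ∑ i, |t i| :=
      (abs_sum_le_sum_abs _ _).trans (sum_le_sum fun i _ => h0 i)
    have h4 := ha p hp1
    have h5 : 0 ≤ ∑ i, |t i| := sum_nonneg fun _ _ => abs_nonneg _
    calc |a p| * |∑ i, t i * (dv p (α i * x + γ i) - 1 / p)| ≤ 1 * ∑ i, |t i| :=
          mul_le_mul h4 h3 (abs_nonneg _) zero_le_one
      _ ≤ _ := by linarith
  · have h5 : 0 ≤ ∑ i, |t i| := sum_nonneg fun _ _ => abs_nonneg _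
    linarith
  · intro p hp
    obtain ⟨h1, h2, h3⟩ := hpr p hp
    apply Y_mean h1
    intro i h
    have h4 := Nat.le_of_dvd (hf.a1 i) h
    have h5 := hw i i
    have h6 := hf.c1 i
    nlinarith

/-- the sum of the variances -/
theorem var_sum {a : ℕ → ℝ} (ha : ∀ p, p.Prime → |a p| ≤ 1) {α γ : ι → ℕ} (hf : Forms α γ) {w : ℕ}
    (hw : ∀ i j, α i * γ j ≤ w) (t : ι → ℝ) (z : ℕ) :
    ∑ p ∈ (Pr z).filter (fun p => w < p), σ2 (Y a α γ t) p ≤ (∑ i, t i ^ 2) * V a z ∧
    (∑ i, t i ^ 2) * (V a z - w) - 2 * (∑ i, t i) ^ 2 ≤ ∑ p ∈ (Pr z).filter (fun p => w < p), σ2 (Y a α γ t) p := by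
  have h1 : ∑ p ∈ (Pr z).filter (fun p => w < p), σ2 (Y a α γ t) p =
      (∑ i, t i ^ 2) * ∑ p ∈ (Pr z).filter (fun p => w < p), a p ^ 2 / p -
      (∑ i, t i) ^ 2 * ∑ p ∈ (Pr z).filter (fun p => w < p), a p ^ 2 / p ^ 2 := by
    rw [mul_sum, mul_sum, ← sum_sub_distrib]
    apply sum_congr rfl
    intro p hp
    rw [mem_filter, mem_Pr] at hp
    exact Y_sq_sum hf hp.1.1 hw hp.2 t
  have hT : 0 ≤ ∑ i, t i ^ 2 := sum_nonneg fun _ _ => sq_nonneg _
  have h2 : 0 ≤ ∑ p ∈ (Pr z).filter (fun p => w < p), a p ^ 2 / p ^ 2 := sum_nonneg fun _ _ => by positivity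
  have h3 : ∑ p ∈ (Pr z).filter (fun p => w < p), a p ^ 2 / p ^ 2 ≤ 2 := by
    refine (sum_le_sum fun p hp => ?_).trans (sq_recip z w)
    rw [mem_filter] at hp
    apply div_le_div_of_nonneg_right _ (by positivity)
    rw [← sq_abs]
    exact pow_le_one₀ (abs_nonneg _) (abs_one ha hp.1)
  have h4 : V a z = ∑ p ∈ (Pr z).filter (fun p => w < p), a p ^ 2 / p + ∑ p ∈ (Pr z).filter (fun p => ¬ w < p), a p ^ 2 / p := by
    unfold V
    rw [sum_filter_add_sum_filter_not]
  have h5 : 0 ≤ ∑ p ∈ (Pr z).filter (fun p => ¬ w < p), a p ^ 2 / p := sum_nonneg fun _ _ => by positivity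
  have h6 : ∑ p ∈ (Pr z).filter (fun p => ¬ w < p), a p ^ 2 / p ≤ w := by
    refine (sum_le_sum (g := fun _ => (1 : ℝ)) fun p hp => ?_).trans ?_
    · rw [mem_filter, mem_Pr] at hp
      have hp1 : (1 : ℝ) ≤ p := by exact_mod_cast hp.1.1.pos
      rw [div_le_one (by linarith)]
      refine le_trans ?_ hp1
      rw [← sq_abs]
      exact pow_le_one₀ (abs_nonneg _) (ha p hp.1.1)
    · rw [sum_const, nsmul_eq_mul, mul_one]
      have : (Pr z).filter (fun p => ¬ w < p) ⊆ Icc 1 w := by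
        intro p hp
        rw [mem_filter, mem_Pr] at hp
        rw [mem_Icc]
        exact ⟨hp.1.1.pos, by omega⟩
      have h7 := card_le_card this
      rw [Nat.card_Icc, Nat.add_sub_cancel] at h7
      exact_mod_cast h7
  rw [h1]
  constructor
  · nlinarith [sq_nonneg (∑ i, t i)]
  · nlinarith [sq_nonneg (∑ i, t i)]

/-- the difference between the additive function and the sum of the centred functions -/
theorem shift_forms {a : ℕ → ℝ} (ha : ∀ p, p.Prime → |a p| ≤ 1) {α γ : ι → ℕ} {w : ℕ}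
    (t : ι → ℝ) {z u N : ℕ} (hz : 2 ≤ z) (hzN : z ≤ N) (hu : N < z ^ (u + 1)) (x : ℕ)
    (hx : ∀ i, 1 ≤ α i * x + γ i ∧ α i * x + γ i < z ^ (u + 1)) :
    |∑ i, t i * (fs a (α i * x + γ i) - A a N) - ∑ p ∈ (Pr z).filter (fun p => w < p), Y a α γ t p x| ≤
      (∑ i, |t i|) * (2 * w + 2 * u + 1) := by
  -- one form
  have hone : ∀ y : ℕ, 1 ≤ y → y < z ^ (u + 1) → |(fs a y - A a N) -
      ∑ p ∈ (Pr z).filter (fun p => w < p), a p * (dv p y - 1 / p)| ≤ 2 * w + 2 * u + 1 := by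
    intro y hy1 hyz
    have e1 : fs a y = ∑ p ∈ y.primeFactors.filter (fun p => ¬ z < p), a p + ∑ p ∈ y.primeFactors.filter (fun p => z < p), a p := by
      unfold fs
      rw [add_comm, sum_filter_add_sum_filter_not]
    have e2 : ∑ p ∈ y.primeFactors.filter (fun p => ¬ z < p), a p = ∑ p ∈ Pr z, a p * dv p y := by
      unfold dv
      simp only [mul_ite, mul_one, mul_zero]
      rw [← sum_filter]
      apply sum_congr _ fun _ _ => rfl
      ext p
      rw [mem_filter, mem_filter, mem_Pr, Nat.mem_primeFactors]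
      constructor
      · rintro ⟨⟨g1, g2, _⟩, g4⟩
        exact ⟨⟨g1, by omega⟩, g2⟩
      · rintro ⟨⟨g1, g4⟩, g2⟩
        exact ⟨⟨g1, g2, by omega⟩, by omega⟩
    have e3 : ∑ p ∈ Pr z, a p * dv p y = ∑ p ∈ (Pr z).filter (fun p => w < p), a p * dv p y +
        ∑ p ∈ (Pr z).filter (fun p => ¬ w < p), a p * dv p y := (sum_filter_add_sum_filter_not _ _ _).symm
    have e4 : A a z = ∑ p ∈ (Pr z).filter (fun p => w < p), a p / p + ∑ p ∈ (Pr z).filter (fun p => ¬ w < p), a p / p :=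
      (sum_filter_add_sum_filter_not _ _ _).symm
    have e5 : ∑ p ∈ (Pr z).filter (fun p => w < p), a p * (dv p y - 1 / p) =
        ∑ p ∈ (Pr z).filter (fun p => w < p), a p * dv p y - ∑ p ∈ (Pr z).filter (fun p => w < p), a p / p := by
      rw [← sum_sub_distrib]
      apply sum_congr rfl
      intro p _
      ring
    have hsmall : ∀ F : ℕ → ℝ, (∀ p ∈ (Pr z).filter (fun p => ¬ w < p), |F p| ≤ 1) →
        |∑ p ∈ (Pr z).filter (fun p => ¬ w < p), F p| ≤ w := by
      intro F hF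
      refine (abs_sum_le_sum_abs _ _).trans ((sum_le_sum hF).trans ?_)
      rw [sum_const, nsmul_eq_mul, mul_one]
      have : (Pr z).filter (fun p => ¬ w < p) ⊆ Icc 1 w := by
        intro p hp
        rw [mem_filter, mem_Pr] at hp
        rw [mem_Icc]
        exact ⟨hp.1.1.pos, by omega⟩
      have h7 := card_le_card this
      rw [Nat.card_Icc, Nat.add_sub_cancel] at h7
      exact_mod_cast h7
    have f1 : |∑ p ∈ (Pr z).filter (fun p => ¬ w < p), a p * dv p y| ≤ w := by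
      apply hsmall
      intro p hp
      rw [mem_filter, mem_Pr] at hp
      have := ha p hp.1.1
      unfold dv
      split_ifs <;> simp [this]
    have f2 : |∑ p ∈ (Pr z).filter (fun p => ¬ w < p), a p / p| ≤ w := by
      apply hsmall
      intro p hp
      rw [mem_filter, mem_Pr] at hp
      have h1 := ha p hp.1.1
      have hp1 : (1 : ℝ) ≤ p := by exact_mod_cast hp.1.1.pos
      rw [abs_div, Nat.abs_cast, div_le_one (by linarith)]
      exact h1.trans hp1
    have f3 : |∑ p ∈ y.primeFactors.filter (fun p => z < p), a p| ≤ u := by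
      refine (abs_sum_le_sum_abs _ _).trans ((sum_le_sum (g := fun _ => (1 : ℝ)) fun p hp => ?_).trans ?_)
      · rw [mem_filter] at hp
        exact ha p (Nat.prime_of_mem_primeFactors hp.1)
      · rw [sum_const, nsmul_eq_mul, mul_one]
        exact_mod_cast card_big hz hy1 hyz
    have f4 := A_diff ha hz hzN hu
    have e6 : (fs a y - A a N) - ∑ p ∈ (Pr z).filter (fun p => w < p), a p * (dv p y - 1 / p) =
        ∑ p ∈ (Pr z).filter (fun p => ¬ w < p), a p * dv p y + ∑ p ∈ y.primeFactors.filter (fun p => z < p), a p -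
        (A a N - A a z) - ∑ p ∈ (Pr z).filter (fun p => ¬ w < p), a p / p := by
      rw [e1, e2, e3, e5]
      linarith
    rw [e6]
    rw [abs_le] at f1 f2 f3 f4 ⊢
    constructor <;> linarith
  have e7 : ∑ i, t i * (fs a (α i * x + γ i) - A a N) - ∑ p ∈ (Pr z).filter (fun p => w < p), Y a α γ t p x =
      ∑ i, t i * ((fs a (α i * x + γ i) - A a N) - ∑ p ∈ (Pr z).filter (fun p => w < p), a p * (dv p (α i * x + γ i) - 1 / p)) := by
    unfold Y
    simp only [mul_sub (t _) (_ - _) _, mul_sum]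
    rw [sum_sub_distrib, sum_comm (s := univ)]
    congr 1
    apply sum_congr rfl
    intro p _
    apply sum_congr rfl
    intro i _
    ring
  rw [e7, sum_mul]
  refine (abs_sum_le_sum_abs _ _).trans (sum_le_sum fun i _ => ?_)
  rw [abs_mul]
  exact mul_le_mul_of_nonneg_left (hone _ (hx i).1 (hx i).2) (abs_nonneg _)

end Pool.Agent.Helper65.EK
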