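import Pool.Agent.Helper65.EK.Dist

set_option autoImplicit false

/-! Additive functions at the values of linear forms: the joint law with thresholds at the values. -/

namespace Pool.Agent.Helper65.EK

open Finset Filter Topology MeasureTheory ProbabilityTheory

/-- additive functions -/
def Add (f : ℕ → ℝ) : Prop := ∀ m n : ℕ, 1 ≤ m → 1 ≤ n → Nat.Coprime m n → f (m * n) = f m + f n

lemma add_one {f : ℕ → ℝ} (hf : Add f) : f 1 = 0 := by
  have h := hf 1 1 le_rfl le_rfl (Nat.coprime_one_left 1)
  rw [mul_one] at h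
  linarith

lemma add_factor {f : ℕ → ℝ} (hf : Add f) {n : ℕ} (hn : 1 ≤ n) :
    f n = ∑ p ∈ n.primeFactors, f (p ^ n.factorization p) := by
  have h1 := Nat.multiplicative_factorization (fun n => Real.exp (f n)) (fun x y hxy => by
    rcases Nat.eq_zero_or_pos x with rfl | hx
    · rw [Nat.coprime_zero_left] at hxy
      subst hxy
      rw [mul_one, add_one hf, Real.exp_zero, mul_one]
    rcases Nat.eq_zero_or_pos y with rfl | hy
    · rw [Nat.coprime_zero_right] at hxy
      subst hxy
      rw [one_mul, add_one hf, Real.exp_zero, one_mul]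
    rw [hf x y hx hy hxy, Real.exp_add]) (by rw [add_one hf, Real.exp_zero]) (n := n) (by omega)
  have h2 : n.factorization.prod (fun p k => Real.exp (f (p ^ k))) = Real.exp (∑ p ∈ n.primeFactors, f (p ^ n.factorization p)) := by
    rw [Real.exp_sum]
    rfl
  have h3 : Real.exp (f n) = Real.exp (∑ p ∈ n.primeFactors, f (p ^ n.factorization p)) := h1.trans h2
  exact Real.exp_injective h3

/-- the bound for the contribution of the higher powers -/
noncomputable def KK (f : ℕ → ℝ) (y₀ k₀ : ℕ) : ℝ := ∑ p ∈ Pr y₀, ∑ k ∈ range k₀, |f (p ^ k) - f p|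

lemma D_bound {f : ℕ → ℝ} (hf : Add f) {n y₀ k₀ : ℕ} (hn : 1 ≤ n) (h1 : ∀ p, p.Prime → y₀ < p → ¬ p ^ 2 ∣ n)
    (h2 : ∀ p, p.Prime → p ≤ y₀ → ¬ p ^ k₀ ∣ n) : |f n - fs f n| ≤ KK f y₀ k₀ := by
  rw [add_factor hf hn]
  unfold fs
  rw [← sum_sub_distrib, ← sum_filter_add_sum_filter_not n.primeFactors (fun p => p ≤ y₀)]
  have e1 : ∑ p ∈ n.primeFactors.filter (fun p => ¬ p ≤ y₀), (f (p ^ n.factorization p) - f p) = 0 := by
    apply sum_eq_zero
    intro p hp
    rw [mem_filter] at hp
    have hpp := Nat.prime_of_mem_primeFactors hp.1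
    have h3 := h1 p hpp (by omega)
    have h4 : 1 ≤ n.factorization p := by
      rw [← hpp.dvd_iff_one_le_factorization (by omega)]
      exact Nat.dvd_of_mem_primeFactors hp.1
    have h5 : ¬ 2 ≤ n.factorization p := fun h => h3 ((hpp.pow_dvd_iff_le_factorization (by omega)).2 h)
    have h6 : n.factorization p = 1 := by omega
    rw [h6, pow_one, sub_self]
  rw [e1, add_zero]
  refine (abs_sum_le_sum_abs _ _).trans ?_
  unfold KK
  calc ∑ p ∈ n.primeFactors.filter (fun p => p ≤ y₀), |f (p ^ n.factorization p) - f p|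
      ≤ ∑ p ∈ n.primeFactors.filter (fun p => p ≤ y₀), ∑ k ∈ range k₀, |f (p ^ k) - f p| := by
        apply sum_le_sum
        intro p hp
        rw [mem_filter] at hp
        have hpp := Nat.prime_of_mem_primeFactors hp.1
        have h5 : ¬ k₀ ≤ n.factorization p := fun h => h2 p hpp hp.2 ((hpp.pow_dvd_iff_le_factorization (by omega)).2 h)
        exact single_le_sum (f := fun k => |f (p ^ k) - f p|) (fun _ _ => abs_nonneg _) (mem_range.2 (by omega))
    _ ≤ _ := by
        apply sum_le_sum_of_subset_of_nonneg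
        · intro p hp
          rw [mem_filter] at hp
          rw [mem_Pr]
          exact ⟨Nat.prime_of_mem_primeFactors hp.1, hp.2⟩
        · intro _ _ _
          exact sum_nonneg fun _ _ => abs_nonneg _

lemma mult_count {α γ d : ℕ} (hα : 1 ≤ α) (hd : 1 ≤ d) (N : ℕ) :
    (((range N).filter (fun s => d ∣ α * s + γ)).card : ℝ) ≤ (α * N + γ : ℕ) / d + 1 := by
  have hdr : (0 : ℝ) < d := by exact_mod_cast hd
  have h1 : ((range N).filter (fun s => d ∣ α * s + γ)).card ≤ (range ((α * N + γ) / d + 1)).card := by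
    apply card_le_card_of_injOn (fun s => (α * s + γ) / d)
    · intro s hs
      rw [coe_filter, Set.mem_ofPred_eq, mem_range] at hs
      rw [coe_range, Set.mem_Iio, Nat.lt_succ_iff]
      apply Nat.div_le_div_right
      have := Nat.mul_le_mul_left α hs.1.le
      omega
    · intro s hs t ht hst
      rw [coe_filter, Set.mem_ofPred_eq] at hs ht
      have h2 : α * s + γ = α * t + γ := by
        rw [← Nat.div_mul_cancel hs.2, ← Nat.div_mul_cancel ht.2]
        simp only at hst
        rw [hst]
      have h3 : α * s = α * t := by omega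
      exact Nat.eq_of_mul_eq_mul_left (by omega) h3
  rw [card_range] at h1
  have h2 : (((α * N + γ) / d : ℕ) : ℝ) ≤ (α * N + γ : ℕ) / d := Nat.cast_div_le
  calc (((range N).filter (fun s => d ∣ α * s + γ)).card : ℝ) ≤ (((α * N + γ) / d + 1 : ℕ) : ℝ) := by exact_mod_cast h1
    _ ≤ _ := by push_cast at h2 ⊢; linarith

lemma sq_tail (x : ℕ) {w : ℕ} (hw : 1 ≤ w) : ∑ p ∈ (Pr x).filter (fun p => w < p), (1 : ℝ) / p ^ 2 ≤ 1 / w := by
  by_cases h : w ≤ x
  · have h1 := sum_Ioc_inv_sq_le_sub (α := ℝ) (show w ≠ 0 by omega) h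
    have h2 : (0 : ℝ) ≤ (x : ℝ)⁻¹ := by positivity
    have h3 : ∑ p ∈ (Pr x).filter (fun p => w < p), (1 : ℝ) / p ^ 2 ≤ ∑ i ∈ Ioc w x, ((i : ℝ) ^ 2)⁻¹ := by
      refine le_trans ?_ (sum_le_sum_of_subset_of_nonneg (s := (Pr x).filter (fun p => w < p)) (fun p hp => ?_) fun _ _ _ => by positivity)
      · apply sum_le_sum
        intro p _
        rw [one_div]
      · rw [mem_filter, mem_Pr] at hp
        rw [mem_Ioc]
        exact ⟨hp.2, hp.1.2⟩
    rw [one_div]
    linarith
  · have : (Pr x).filter (fun p => w < p) = ∅ := by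
      rw [filter_eq_empty_iff]
      intro p hp
      rw [mem_Pr] at hp
      omega
    rw [this, sum_empty]
    positivity

open Classical in
/-- the higher powers contribute a bounded amount, with few exceptions -/
theorem higher {f : ℕ → ℝ} (hf : Add f) {α γ : ℕ} (hα : 1 ≤ α) (hγ : 1 ≤ γ) {η : ℝ} (hη : 0 < η) :
    ∃ K : ℝ, ∀ᶠ N : ℕ in atTop, (((range N).filter (fun s => K < |f (α * s + γ) - fs f (α * s + γ)|)).card : ℝ) ≤ η * N := by
  set c : ℝ := (α : ℝ) + γ with hc
  have hc1 : 1 ≤ c := by
    have : (1 : ℝ) ≤ α := by exact_mod_cast hα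
    have : (0 : ℝ) ≤ γ := Nat.cast_nonneg _
    linarith
  obtain ⟨y₀, hy₀⟩ := exists_nat_ge (4 * c / η)
  set w := max y₀ 1 with hw
  have hw1 : 1 ≤ w := le_max_right _ _
  have hwr : 4 * c / η ≤ w := hy₀.trans (by exact_mod_cast le_max_left _ _)
  obtain ⟨k₀, hk₀⟩ : ∃ k₀ : ℕ, 4 * c * w / η ≤ 2 ^ k₀ := by
    obtain ⟨k, hk⟩ := pow_unbounded_of_one_lt (4 * c * w / η) (show (1 : ℝ) < 2 by norm_num)
    exact ⟨k, hk.le⟩
  refine ⟨KK f w k₀, ?_⟩
  have hsq : ∀ᶠ N : ℕ in atTop, Real.sqrt (c * N) + w ≤ η / 2 * N := by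
    have h1 : Tendsto (fun x : ℝ => η / 2 * x - Real.sqrt c * Real.sqrt x) atTop atTop := by
      have h2 : (fun x : ℝ => η / 2 * x - Real.sqrt c * Real.sqrt x) =ᶠ[atTop] fun x => Real.sqrt x * (η / 2 * Real.sqrt x - Real.sqrt c) := by
        filter_upwards [eventually_ge_atTop 0] with x hx
        have := Real.mul_self_sqrt hx
        nlinarith
      rw [tendsto_congr' h2]
      apply Tendsto.atTop_mul_atTop₀ Real.tendsto_sqrt_atTop
      exact tendsto_atTop_add_const_right _ _ (Real.tendsto_sqrt_atTop.const_mul_atTop (by positivity))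
    filter_upwards [(h1.comp tendsto_natCast_atTop_atTop).eventually_ge_atTop (w : ℝ)] with N hN
    rw [Function.comp] at hN
    rw [Real.sqrt_mul (by linarith)]
    linarith
  filter_upwards [hsq, eventually_ge_atTop 1] with N hN hN1
  have hNr : (1 : ℝ) ≤ N := by exact_mod_cast hN1
  have hαN : ((α * N + γ : ℕ) : ℝ) ≤ c * N := by
    push_cast
    rw [hc]
    have : (0 : ℝ) ≤ γ := Nat.cast_nonneg _
    nlinarith
  -- the exceptional set
  set Q : Finset ℕ := (Pr (Nat.sqrt (α * N + γ))).filter (fun p => w < p) with hQ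
  have hsub : (range N).filter (fun s => KK f w k₀ < |f (α * s + γ) - fs f (α * s + γ)|) ⊆
      (Q.biUnion fun p => (range N).filter (fun s => p ^ 2 ∣ α * s + γ)) ∪
      ((Pr w).biUnion fun p => (range N).filter (fun s => p ^ k₀ ∣ α * s + γ)) := by
    intro s hs
    rw [mem_filter, mem_range] at hs
    rw [mem_union, mem_biUnion, mem_biUnion]
    by_contra hcon
    push Not at hcon
    obtain ⟨h1, h2⟩ := hcon
    refine absurd hs.2 (not_lt.2 (D_bound hf (by omega) ?_ ?_))
    · intro p hp hwp hd
      have h3 : p ^ 2 ≤ α * N + γ := (Nat.le_of_dvd (by omega) hd).trans (by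
        have := Nat.mul_le_mul_left α hs.1.le
        omega)
      refine h1 p ?_ (mem_filter.2 ⟨mem_range.2 hs.1, hd⟩)
      rw [hQ, mem_filter, mem_Pr]
      refine ⟨⟨hp, ?_⟩, hwp⟩
      rw [Nat.le_sqrt, ← sq]
      exact h3
    · intro p hp hwp hd
      exact h2 p (mem_Pr.2 ⟨hp, hwp⟩) (mem_filter.2 ⟨mem_range.2 hs.1, hd⟩)
  have h1 : (((Q.biUnion fun p => (range N).filter (fun s => p ^ 2 ∣ α * s + γ)).card : ℕ) : ℝ) ≤ η / 4 * N + Real.sqrt (c * N) := by
    calc (((Q.biUnion fun p => (range N).filter (fun s => p ^ 2 ∣ α * s + γ)).card : ℕ) : ℝ)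
        ≤ ∑ p ∈ Q, (((range N).filter (fun s => p ^ 2 ∣ α * s + γ)).card : ℝ) := by exact_mod_cast card_biUnion_le
      _ ≤ ∑ p ∈ Q, ((α * N + γ : ℕ) / ((p ^ 2 : ℕ) : ℝ) + 1) := by
          apply sum_le_sum
          intro p hp
          rw [hQ, mem_filter, mem_Pr] at hp
          exact mult_count hα (Nat.one_le_pow _ _ hp.1.1.pos) N
      _ = (α * N + γ : ℕ) * (∑ p ∈ Q, (1 : ℝ) / p ^ 2) + Q.card := by
          rw [sum_add_distrib, sum_const, nsmul_eq_mul, mul_one, mul_sum]
          congr 1
          apply sum_congr rfl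
          intro p _
          push_cast
          ring
      _ ≤ (c * N) * (1 / w) + Real.sqrt (c * N) := by
          apply add_le_add
          · apply mul_le_mul hαN (sq_tail _ hw1) (sum_nonneg fun _ _ => by positivity) (by positivity)
          · have h2 : (Q.card : ℝ) ≤ (Nat.sqrt (α * N + γ) : ℕ) := by
              exact_mod_cast (card_filter_le _ _).trans (card_Pr _)
            refine h2.trans ?_
            refine (Real.nat_sqrt_le_real_sqrt).trans (Real.sqrt_le_sqrt hαN)
      _ ≤ _ := by
          apply add_le_add _ le_rfl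
          have hw0 : (0 : ℝ) < w := by exact_mod_cast hw1
          rw [mul_one_div, div_le_iff₀ hw0]
          rw [div_le_iff₀ hη] at hwr
          nlinarith
  have h2 : ((((Pr w).biUnion fun p => (range N).filter (fun s => p ^ k₀ ∣ α * s + γ)).card : ℕ) : ℝ) ≤ η / 4 * N + w := by
    calc ((((Pr w).biUnion fun p => (range N).filter (fun s => p ^ k₀ ∣ α * s + γ)).card : ℕ) : ℝ)
        ≤ ∑ p ∈ Pr w, (((range N).filter (fun s => p ^ k₀ ∣ α * s + γ)).card : ℝ) := by exact_mod_cast card_biUnion_le
      _ ≤ ∑ p ∈ Pr w, (c * N / 2 ^ k₀ + 1) := by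
          apply sum_le_sum
          intro p hp
          rw [mem_Pr] at hp
          refine (mult_count hα (Nat.one_le_pow _ _ hp.1.pos) N).trans ?_
          apply add_le_add _ le_rfl
          have h3 : (2 : ℝ) ^ k₀ ≤ ((p ^ k₀ : ℕ) : ℝ) := by
            push_cast
            exact pow_le_pow_left₀ (by norm_num) (by exact_mod_cast hp.1.two_le) _
          exact div_le_div₀ (by positivity) hαN (by positivity) h3
      _ = (Pr w).card * (c * N / 2 ^ k₀ + 1) := by rw [sum_const, nsmul_eq_mul]
      _ ≤ w * (c * N / 2 ^ k₀ + 1) := by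
          apply mul_le_mul_of_nonneg_right _ (by positivity)
          exact_mod_cast card_Pr w
      _ ≤ _ := by
          rw [mul_add, mul_one]
          apply add_le_add _ le_rfl
          rw [mul_div_assoc', div_le_iff₀ (by positivity)]
          rw [div_le_iff₀ hη] at hk₀
          nlinarith
  have h3 : (((range N).filter (fun s => KK f w k₀ < |f (α * s + γ) - fs f (α * s + γ)|)).card : ℝ) ≤
      (((Q.biUnion fun p => (range N).filter (fun s => p ^ 2 ∣ α * s + γ)).card : ℕ) : ℝ) +
      ((((Pr w).biUnion fun p => (range N).filter (fun s => p ^ k₀ ∣ α * s + γ)).card : ℕ) : ℝ) := by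
    exact_mod_cast (card_le_card hsub).trans (card_union_le _ _)
  linarith

/-! ### the normal law -/

lemma Phi_mono {x y : ℝ} (h : x ≤ y) : Phi x ≤ Phi y := by
  unfold Phi
  exact measureReal_mono (Set.Iic_subset_Iic.2 h)

lemma Phi_nonneg (x : ℝ) : 0 ≤ Phi x := measureReal_nonneg

lemma Phi_le_one (x : ℝ) : Phi x ≤ 1 := by
  unfold Phi
  exact measureReal_le_one

lemma Phi_lip {x y : ℝ} (h : x ≤ y) : Phi y - Phi x ≤ y - x := by
  unfold Phi
  have h1 : (gaussianReal 0 1).real (Set.Iic y) = (gaussianReal 0 1).real (Set.Iic x) + (gaussianReal 0 1).real (Set.Ioc x y) := by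
    rw [← Set.Iic_union_Ioc_eq_Iic h, measureReal_union (by
      rw [Set.disjoint_left]
      intro z hz1 hz2
      exact absurd hz1 (not_le.2 hz2.1)) measurableSet_Ioc]
  rw [h1, add_sub_cancel_left]
  have h2 : (gaussianReal 0 1) (Set.Ioc x y) ≤ ENNReal.ofReal (y - x) := by
    rw [gaussianReal_apply 0 (by norm_num)]
    calc ∫⁻ z in Set.Ioc x y, gaussianPDF 0 1 z ≤ ∫⁻ z in Set.Ioc x y, 1 := by
          apply lintegral_mono
          intro z
          unfold gaussianPDF
          rw [ENNReal.ofReal_le_one]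
          unfold gaussianPDFReal
          have h3 : (1 : ℝ) ≤ Real.sqrt (2 * Real.pi * (1 : NNReal)) := by
            rw [Real.one_le_sqrt]
            push_cast
            nlinarith [Real.pi_gt_three]
          have h4 : (Real.sqrt (2 * Real.pi * (1 : NNReal)))⁻¹ ≤ 1 := inv_le_one_of_one_le₀ h3
          have h5 : Real.exp (-(z - 0) ^ 2 / (2 * (1 : NNReal))) ≤ 1 := by
            apply Real.exp_le_one_iff.2
            have : 0 ≤ (z - 0) ^ 2 / (2 * ((1 : NNReal) : ℝ)) := by positivity
            rw [neg_div]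
            linarith
          calc (Real.sqrt (2 * Real.pi * (1 : NNReal)))⁻¹ * Real.exp (-(z - 0) ^ 2 / (2 * (1 : NNReal))) ≤ 1 * 1 :=
                mul_le_mul h4 h5 (Real.exp_pos _).le zero_le_one
            _ = 1 := one_mul _
      _ = ENNReal.ofReal (y - x) := by
          rw [lintegral_one, Measure.restrict_apply_univ, Real.volume_Ioc]
  rw [measureReal_def]
  have h3 := ENNReal.toReal_mono ENNReal.ofReal_ne_top h2
  rwa [ENNReal.toReal_ofReal (by linarith)] at h3

lemma Phi_cont : Continuous Phi := by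
  apply LipschitzWith.continuous (K := 1)
  apply LipschitzWith.of_dist_le_mul
  intro x y
  rw [NNReal.coe_one, one_mul, Real.dist_eq, Real.dist_eq]
  rcases le_total x y with h | h
  · have h1 := Phi_lip h
    have h2 := Phi_mono h
    rw [abs_le, abs_of_nonpos (by linarith)]
    constructor <;> linarith
  · have h1 := Phi_lip h
    have h2 := Phi_mono h
    rw [abs_le, abs_of_nonneg (by linarith)]
    constructor <;> linarith

/-! ### the law with thresholds at the values -/

/-- the integers whose value is below the threshold -/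
def G (f : ℕ → ℝ) (y : ℝ) : Set ℕ := {v | f v ≤ A f v + y * Real.sqrt (V f v)}

lemma near {a : ℕ → ℝ} (ha : ∀ p, p.Prime → |a p| ≤ 1) {x v : ℕ} (hx : 2 ≤ x) (hxv : x ≤ v) (h : v < x ^ 2) (hV : 4 ≤ V a x) (y : ℝ) :
    |(A a v + y * Real.sqrt (V a v)) - (A a x + y * Real.sqrt (V a x))| ≤ 2 + |y| := by
  have h1 := A_diff ha (u := 1) hx hxv h
  have h2 := V_diff ha (u := 1) hx hxv h
  have h3 := V_mono a hxv
  norm_num at h1 h2
  have h4 : 2 ≤ Real.sqrt (V a x) := by
    rw [show (2 : ℝ) = Real.sqrt 4 by rw [show (4 : ℝ) = 2 ^ 2 by norm_num, Real.sqrt_sq (by norm_num)]]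
    exact Real.sqrt_le_sqrt hV
  have h5 : Real.sqrt (V a x) ≤ Real.sqrt (V a v) := Real.sqrt_le_sqrt h3
  have h6 : Real.sqrt (V a v) - Real.sqrt (V a x) ≤ 1 := by
    have e1 := Real.sq_sqrt (V_nonneg a v)
    have e2 := Real.sq_sqrt (V_nonneg a x)
    nlinarith
  have h7 : |y * (Real.sqrt (V a v) - Real.sqrt (V a x))| ≤ |y| := by
    rw [abs_mul]
    apply mul_le_of_le_one_right (abs_nonneg _)
    rw [abs_le]
    constructor <;> linarith
  have e : (A a v + y * Real.sqrt (V a v)) - (A a x + y * Real.sqrt (V a x)) = (A a v - A a x) +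
      y * (Real.sqrt (V a v) - Real.sqrt (V a x)) := by ring
  rw [e]
  exact (abs_add_le _ _).trans (add_le_add h1 h7)

variable {ι : Type*} [Fintype ι]

open Classical in
/-- the number of the `s < N` for which all values are in the sets `G` -/
noncomputable def cntG (f : ℕ → ℝ) (α γ : ι → ℕ) (y : ι → ℝ) (N : ℕ) : ℕ :=
  ((range N).filter (fun s => ∀ i, α i * s + γ i ∈ G f (y i))).card

theorem self_lim {f : ℕ → ℝ} (hf : Add f) (ha : ∀ p, p.Prime → |f p| ≤ 1) (hV : Tendsto (V f) atTop atTop) {α γ : ι → ℕ}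
    (hF : Forms α γ) (y : ι → ℝ) :
    Tendsto (fun N => (cntG f α γ y N : ℝ) / N) atTop (𝓝 (∏ i, Phi (y i))) := by
  classical
  -- continuity of the limit
  have hcont : Continuous fun h : ℝ => ∏ i, Phi (y i + h) :=
    continuous_finset_prod _ fun i _ => Phi_cont.comp (continuous_const.add continuous_id)
  rw [Metric.tendsto_atTop]
  intro ε hε
  have hc0 := Metric.continuousAt_iff.1 (hcont.continuousAt (x := (0 : ℝ))) (ε / 4) (by positivity)
  obtain ⟨δ, hδ, hδc⟩ := hc0
  set h : ℝ := δ / 2 with hh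
  have hh0 : 0 < h := by positivity
  have hup : |∏ i, Phi (y i + h) - ∏ i, Phi (y i)| < ε / 4 := by
    have := hδc (x := h) (by rw [Real.dist_eq, sub_zero, abs_of_pos hh0]; linarith)
    simp only [add_zero] at this
    rwa [Real.dist_eq] at this
  have hdown : |∏ i, Phi (y i - h) - ∏ i, Phi (y i)| < ε / 4 := by
    have := hδc (x := -h) (by rw [Real.dist_eq, sub_zero, abs_neg, abs_of_pos hh0]; linarith)
    simp only [add_zero] at this
    rw [Real.dist_eq] at this
    simpa [sub_eq_add_neg] using this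
  -- the exceptions
  set η : ℝ := ε / (8 * (Fintype.card ι + 1)) with hη
  have hη0 : 0 < η := by positivity
  have hηι : (Fintype.card ι : ℝ) * η + η ≤ ε / 8 := by
    rw [hη]
    have : (0 : ℝ) < Fintype.card ι + 1 := by positivity
    apply le_of_eq
    field_simp
  choose K hK using fun i => higher hf (hF.a1 i) (hF.c1 i) hη0
  set C : ℝ := ∑ i, (|K i| + 2 + |y i|) with hC
  have hCi : ∀ i, K i + (2 + |y i|) ≤ C := by
    intro i
    have h1 := single_le_sum (f := fun i => |K i| + 2 + |y i|) (fun i _ => by positivity) (mem_univ i)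
    have h2 := le_abs_self (K i)
    linarith
  set w : ℕ := ∑ i, (α i + γ i) with hw
  have hwi : ∀ i, α i + γ i ≤ w := fun i => single_le_sum (f := fun i => α i + γ i) (fun _ _ => Nat.zero_le _) (mem_univ i)
  have hlimU := dist_lim ha hV hF (fun i => y i + h)
  have hlimL := dist_lim ha hV hF (fun i => y i - h)
  rw [Metric.tendsto_atTop] at hlimU hlimL
  obtain ⟨N₁, hN₁⟩ := hlimU (ε / 4) (by positivity)
  obtain ⟨N₂, hN₂⟩ := hlimL (ε / 4) (by positivity)
  have hKall : ∀ᶠ N : ℕ in atTop, ∀ i, (((range N).filter (fun s => K i < |f (α i * s + γ i) - fs f (α i * s + γ i)|)).card : ℝ) ≤ η * N :=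
    eventually_all.2 hK
  have hVs : ∀ᶠ N in atTop, C ≤ h * Real.sqrt (V f N) ∧ 4 ≤ V f N := by
    have h1 : Tendsto (fun N => h * Real.sqrt (V f N)) atTop atTop := (Real.tendsto_sqrt_atTop.comp hV).const_mul_atTop hh0
    exact (h1.eventually_ge_atTop C).and (hV.eventually_ge_atTop 4)
  obtain ⟨N₃, hN₃⟩ := eventually_atTop.1 hVs
  obtain ⟨X₀, hX₀⟩ := exists_nat_ge ((2 * (N₃ : ℝ) + 4 * (w : ℝ) + 8) / η ^ 2)
  have hfin : ∀ᶠ N : ℕ in atTop, dist ((cntG f α γ y N : ℝ) / N) (∏ i, Phi (y i)) < ε := by
    filter_upwards [hKall, eventually_ge_atTop (max N₁ N₂), eventually_ge_atTop (max X₀ 1), eventually_ge_atTop (2 * N₃ + 4 * w + 8)]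
      with N k1 k2 k3 k4
    have hN1 : 1 ≤ N := (le_max_right _ _).trans k3
    have hNr : (0 : ℝ) < N := by exact_mod_cast hN1
    have hXN : (2 * (N₃ : ℝ) + 4 * (w : ℝ) + 8) ≤ η ^ 2 * N := by
      have h1 : (2 * (N₃ : ℝ) + 4 * (w : ℝ) + 8) / η ^ 2 ≤ N := hX₀.trans (by exact_mod_cast (le_max_left _ _).trans k3)
      rw [div_le_iff₀ (by positivity)] at h1
      linarith
    have hη1 : η ≤ 1 ∨ 1 < η := le_or_gt η 1
    -- the set of the regular `s`
    set R : Finset ℕ := (range N).filter (fun s => η * N ≤ s ∧ ∀ i, |f (α i * s + γ i) - fs f (α i * s + γ i)| ≤ K i) with hR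
    have hRc : ((((range N).filter (fun s => s ∉ R)).card : ℕ) : ℝ) ≤ (ε / 8) * N + 1 := by
      have hsub : (range N).filter (fun s => s ∉ R) ⊆ (range ⌈η * N⌉₊) ∪
          (univ : Finset ι).biUnion (fun i => (range N).filter (fun s => K i < |f (α i * s + γ i) - fs f (α i * s + γ i)|)) := by
        intro s hs
        rw [mem_filter, hR, mem_filter] at hs
        obtain ⟨g1, g2⟩ := hs
        rw [mem_union, mem_biUnion]
        by_contra hcon
        push Not at hcon
        obtain ⟨g3, g4⟩ := hcon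
        apply g2
        refine ⟨g1, ?_, fun i => ?_⟩
        · rw [mem_range, not_lt] at g3
          exact (Nat.le_ceil _).trans (by exact_mod_cast g3)
        · have := g4 i (mem_univ i)
          rw [mem_filter, not_and, not_lt] at this
          exact this g1
      have h1 : ((((univ : Finset ι).biUnion (fun i => (range N).filter
          (fun s => K i < |f (α i * s + γ i) - fs f (α i * s + γ i)|))).card : ℕ) : ℝ) ≤ Fintype.card ι * (η * N) := by
        calc ((((univ : Finset ι).biUnion (fun i => (range N).filter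
          (fun s => K i < |f (α i * s + γ i) - fs f (α i * s + γ i)|))).card : ℕ) : ℝ) ≤
            ∑ i, (((range N).filter (fun s => K i < |f (α i * s + γ i) - fs f (α i * s + γ i)|)).card : ℝ) := by
              exact_mod_cast card_biUnion_le
          _ ≤ ∑ i : ι, η * N := sum_le_sum fun i _ => k1 i
          _ = _ := by rw [sum_const, card_univ, nsmul_eq_mul]
      have h2 : ((⌈η * N⌉₊ : ℕ) : ℝ) ≤ η * N + 1 := (Nat.ceil_lt_add_one (by positivity)).le
      have h3 : ((((range N).filter (fun s => s ∉ R)).card : ℕ) : ℝ) ≤ ((⌈η * N⌉₊ : ℕ) : ℝ) + Fintype.card ι * (η * N) := by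
        refine le_trans ?_ (add_le_add le_rfl h1)
        have h4 := (card_le_card hsub).trans (card_union_le _ _)
        rw [card_range] at h4
        exact_mod_cast h4
      nlinarith
    -- comparison of the thresholds
    have hcomp : ∀ s ∈ R, ∀ i, (α i * s + γ i ∈ G f (y i) → fs f (α i * s + γ i) ≤ A f N + (y i + h) * Real.sqrt (V f N)) ∧
        (fs f (α i * s + γ i) ≤ A f N + (y i - h) * Real.sqrt (V f N) → α i * s + γ i ∈ G f (y i)) := by
      intro s hs i
      rw [hR, mem_filter, mem_range] at hs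
      obtain ⟨g1, g2, g3⟩ := hs
      set v := α i * s + γ i with hv
      have hα := hF.a1 i
      have hsv : s ≤ v := by
        rw [hv]
        nlinarith
      have hsr : (s : ℝ) ≤ v := by exact_mod_cast hsv
      have hηv : η * N ≤ v := g2.trans hsr
      -- size of `v`
      have hv2 : (2 * N₃ + 4 * w + 8 : ℝ) ≤ v ∨ η < 1 := by
        rcases hη1 with h1 | h1
        · rcases h1.lt_or_eq with h2 | h2
          · exact Or.inr h2
          · left
            rw [h2] at hXN hηv
            linarith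
        · exfalso
          have : (s : ℝ) < N := by exact_mod_cast g1
          nlinarith
      have hvbig : (2 * N₃ + 4 * w + 8 : ℝ) ≤ v := by
        rcases hv2 with h1 | h1
        · exact h1
        · have h2 : η ^ 2 * N ≤ η * N := by nlinarith
          linarith
      have hvN : v ≤ w * N := by
        have h1 := hwi i
        calc v ≤ α i * N + γ i * N := by
              rw [hv]
              apply Nat.add_le_add
              · exact Nat.mul_le_mul_left _ g1.le
              · exact Nat.le_mul_of_pos_right _ (by omega)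
          _ = (α i + γ i) * N := by ring
          _ ≤ _ := Nat.mul_le_mul_right _ h1
      have hv3 : N₃ ≤ v ∧ 2 ≤ v := by
        have h1 : (N₃ : ℝ) ≤ v := by
          have : (0 : ℝ) ≤ w := Nat.cast_nonneg _
          have : (0 : ℝ) ≤ N₃ := Nat.cast_nonneg _
          linarith
        have h2 : (2 : ℝ) ≤ v := by
          have : (0 : ℝ) ≤ w := Nat.cast_nonneg _
          have : (0 : ℝ) ≤ N₃ := Nat.cast_nonneg _
          linarith
        exact ⟨by exact_mod_cast h1, by exact_mod_cast h2⟩
      have hNN₃ : N₃ ≤ N := by omega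
      have hth : |(A f v + y i * Real.sqrt (V f v)) - (A f N + y i * Real.sqrt (V f N))| ≤ 2 + |y i| := by
        rcases le_total v N with hle | hle
        · rw [abs_sub_comm]
          apply near ha hv3.2 hle _ (hN₃ v hv3.1).2
          have h1 : (N : ℝ) < (v : ℝ) ^ 2 := by
            have e1 : (η * N) ^ 2 ≤ (v : ℝ) ^ 2 := pow_le_pow_left₀ (by positivity) hηv 2
            have e2 : (η * N) ^ 2 = (η ^ 2 * N) * N := by ring
            have e3 : (8 : ℝ) ≤ η ^ 2 * N := by
              have : (0 : ℝ) ≤ w := Nat.cast_nonneg _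
              have : (0 : ℝ) ≤ N₃ := Nat.cast_nonneg _
              linarith
            nlinarith
          exact_mod_cast h1
        · apply near ha (by omega) hle _ (hN₃ N hNN₃).2
          refine lt_of_le_of_lt hvN ?_
          rw [sq]
          apply Nat.mul_lt_mul_of_pos_right _ (by omega)
          omega
      have hK' := g3 i
      rw [← hv] at hK'
      have hCC := (hN₃ N hNN₃).1
      have hCi' := hCi i
      rw [abs_le] at hK' hth
      constructor
      · intro hG
        have hG' : f v ≤ A f v + y i * Real.sqrt (V f v) := hG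
        nlinarith
      · intro hG
        show f v ≤ A f v + y i * Real.sqrt (V f v)
        nlinarith
    -- the counts
    have hU : (cntG f α γ y N : ℝ) ≤ cnt f α γ (fun i => y i + h) N + (ε / 8 * N + 1) := by
      refine le_trans ?_ (add_le_add le_rfl hRc)
      unfold cntG cnt
      have : (range N).filter (fun s => ∀ i, α i * s + γ i ∈ G f (y i)) ⊆
          (range N).filter (fun x => ∀ i, fs f (α i * x + γ i) ≤ A f N + (y i + h) * Real.sqrt (V f N)) ∪
            (range N).filter (fun s => s ∉ R) := by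
        intro s hs
        rw [mem_filter] at hs
        rw [mem_union, mem_filter, mem_filter]
        by_cases hsR : s ∈ R
        · exact Or.inl ⟨hs.1, fun i => (hcomp s hsR i).1 (hs.2 i)⟩
        · exact Or.inr ⟨hs.1, hsR⟩
      exact_mod_cast (card_le_card this).trans (card_union_le _ _)
    have hL : (cnt f α γ (fun i => y i - h) N : ℝ) ≤ cntG f α γ y N + (ε / 8 * N + 1) := by
      refine le_trans ?_ (add_le_add le_rfl hRc)
      unfold cntG cnt
      have : (range N).filter (fun x => ∀ i, fs f (α i * x + γ i) ≤ A f N + (y i - h) * Real.sqrt (V f N)) ⊆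
          (range N).filter (fun s => ∀ i, α i * s + γ i ∈ G f (y i)) ∪ (range N).filter (fun s => s ∉ R) := by
        intro s hs
        rw [mem_filter] at hs
        rw [mem_union, mem_filter, mem_filter]
        by_cases hsR : s ∈ R
        · exact Or.inl ⟨hs.1, fun i => (hcomp s hsR i).2 (hs.2 i)⟩
        · exact Or.inr ⟨hs.1, hsR⟩
      exact_mod_cast (card_le_card this).trans (card_union_le _ _)
    have a1 := hN₁ N ((le_max_left _ _).trans k2)
    have a2 := hN₂ N ((le_max_right _ _).trans k2)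
    rw [Real.dist_eq, abs_lt] at a1 a2
    rw [abs_lt] at hup hdown
    have hηη : η ≤ ε / 8 := by
      have : 0 ≤ (Fintype.card ι : ℝ) * η := by positivity
      linarith
    have h8N : 1 ≤ ε / 8 * N := by
      rcases hη1 with h1 | h1
      · have e1 : η ^ 2 * N ≤ η * N := by nlinarith
        have e2 : η * N ≤ ε / 8 * N := mul_le_mul_of_nonneg_right hηη hNr.le
        have : (0 : ℝ) ≤ w := Nat.cast_nonneg _
        have : (0 : ℝ) ≤ N₃ := Nat.cast_nonneg _
        linarith
      · have e2 : η * N ≤ ε / 8 * N := mul_le_mul_of_nonneg_right hηη hNr.le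
        have e3 : (1 : ℝ) ≤ N := by exact_mod_cast hN1
        nlinarith
    have b1 : (cntG f α γ y N : ℝ) / N ≤ (cnt f α γ (fun i => y i + h) N : ℝ) / N + ε / 4 := by
      rw [div_add' _ _ _ hNr.ne', div_le_div_iff_of_pos_right hNr]
      linarith
    have b2 : (cnt f α γ (fun i => y i - h) N : ℝ) / N ≤ (cntG f α γ y N : ℝ) / N + ε / 4 := by
      rw [div_add' _ _ _ hNr.ne', div_le_div_iff_of_pos_right hNr]
      linarith
    rw [Real.dist_eq, abs_lt]
    constructor <;> linarith
  exact eventually_atTop.1 hfin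

end Pool.Agent.Helper65.EK
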