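import Pool.Agent.Helper65.EK.Avg

set_option autoImplicit false

/-! Characteristic functions: comparison with the independent model. -/

namespace Pool.Agent.Helper65.EK

open Finset

/-- the remainder -/
noncomputable def rem (k : ℕ) (θ : ℝ) : ℂ :=
  Complex.exp (θ * Complex.I) - ∑ j ∈ range k, (θ * Complex.I) ^ j / (j.factorial : ℂ)

lemma rem_zero (k : ℕ) : rem (k + 1) 0 = 0 := by
  unfold rem
  rw [sum_range_succ']
  simp

lemma rem_deriv (k : ℕ) (θ : ℝ) : HasDerivAt (rem (k + 1)) (Complex.I * rem k θ) θ := by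
  unfold rem
  have h1 : HasDerivAt (fun θ : ℝ => (θ : ℂ) * Complex.I) Complex.I θ := by
    have := (Complex.ofRealCLM.hasDerivAt (x := θ)).mul_const Complex.I
    simpa using this
  have h2 : HasDerivAt (fun θ : ℝ => Complex.exp (θ * Complex.I)) (Complex.exp (θ * Complex.I) * Complex.I) θ := h1.cexp
  have h3 : ∀ j, HasDerivAt (fun θ : ℝ => ((θ : ℂ) * Complex.I) ^ (j + 1) / ((j + 1).factorial : ℂ))
      (Complex.I * (((θ : ℂ) * Complex.I) ^ j / (j.factorial : ℂ))) θ := by
    intro j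
    have h4 := (h1.pow (j + 1)).div_const ((j + 1).factorial : ℂ)
    refine h4.congr_deriv ?_
    have h5 : ((j.factorial : ℕ) : ℂ) ≠ 0 := by exact_mod_cast j.factorial_ne_zero
    rw [Nat.factorial_succ]
    push_cast
    have h6 : ((j : ℂ) + 1) ≠ 0 := by exact_mod_cast (by omega : j + 1 ≠ 0)
    field_simp
  have h4 : HasDerivAt (fun θ : ℝ => ∑ j ∈ range (k + 1), ((θ : ℂ) * Complex.I) ^ j / (j.factorial : ℂ))
      (Complex.I * ∑ j ∈ range k, ((θ : ℂ) * Complex.I) ^ j / (j.factorial : ℂ)) θ := by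
    have h5 : (fun θ : ℝ => ∑ j ∈ range (k + 1), ((θ : ℂ) * Complex.I) ^ j / (j.factorial : ℂ)) =
        fun θ : ℝ => ∑ j ∈ range k, ((θ : ℂ) * Complex.I) ^ (j + 1) / ((j + 1).factorial : ℂ) + 1 := by
      funext θ
      rw [sum_range_succ']
      simp
    rw [h5, mul_sum]
    exact (HasDerivAt.fun_sum fun j _ => h3 j).add_const 1
  have h5 := h2.sub h4
  refine h5.congr_deriv ?_
  ring

lemma rem_nonneg (k : ℕ) : ∀ θ : ℝ, 0 ≤ θ → ‖rem k θ‖ ≤ θ ^ k / k.factorial := by
  induction k with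
  | zero =>
    intro θ _
    unfold rem
    simp [Complex.norm_exp_ofReal_mul_I]
  | succ k ih =>
    intro θ hθ
    have h := image_norm_le_of_norm_deriv_right_le_deriv_boundary (f := rem (k + 1)) (f' := fun θ => Complex.I * rem k θ)
      (a := 0) (b := θ) (fun x _ => (rem_deriv k x).continuousAt.continuousWithinAt)
      (fun x _ => (rem_deriv k x).hasDerivWithinAt) (B := fun x => x ^ (k + 1) / (k + 1).factorial)
      (B' := fun x => x ^ k / k.factorial) (by rw [rem_zero]; simp) (by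
        intro x
        have h1 := ((hasDerivAt_id x).pow (k + 1)).div_const ((k + 1).factorial : ℝ)
        refine h1.congr_deriv ?_
        have h5 : ((k.factorial : ℕ) : ℝ) ≠ 0 := by exact_mod_cast k.factorial_ne_zero
        rw [Nat.factorial_succ]
        push_cast
        field_simp
        simp) (by
        intro x hx
        rw [norm_mul, Complex.norm_I, one_mul]
        exact ih x hx.1)
    exact h ⟨hθ, le_rfl⟩

lemma rem_neg (k : ℕ) (θ : ℝ) : rem k (-θ) = (starRingEnd ℂ) (rem k θ) := by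
  unfold rem
  rw [map_sub, map_sum, ← Complex.exp_conj]
  simp only [map_mul, map_div₀, map_pow, Complex.conj_ofReal, Complex.conj_I, map_natCast, Complex.ofReal_neg, neg_mul,
    mul_neg]

lemma rem_le (k : ℕ) (θ : ℝ) : ‖rem k θ‖ ≤ |θ| ^ k / k.factorial := by
  rcases le_total 0 θ with h | h
  · rw [abs_of_nonneg h]
    exact rem_nonneg k θ h
  · rw [abs_of_nonpos h]
    have h1 := rem_nonneg k (-θ) (by linarith)
    rw [rem_neg, RCLike.norm_conj] at h1
    exact h1

lemma norm_prod_sub {ι : Type*} (P : Finset ι) (u v : ι → ℂ) (hu : ∀ i ∈ P, ‖u i‖ ≤ 1) (hv : ∀ i ∈ P, ‖v i‖ ≤ 1) :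
    ‖∏ i ∈ P, u i - ∏ i ∈ P, v i‖ ≤ ∑ i ∈ P, ‖u i - v i‖ := by
  classical
  induction P using Finset.induction_on with
  | empty => simp
  | insert a P ha ih =>
    rw [prod_insert ha, prod_insert ha, sum_insert ha]
    have h1 := ih (fun i hi => hu i (mem_insert_of_mem hi)) (fun i hi => hv i (mem_insert_of_mem hi))
    have e : u a * ∏ i ∈ P, u i - v a * ∏ i ∈ P, v i = (u a - v a) * ∏ i ∈ P, u i + v a * (∏ i ∈ P, u i - ∏ i ∈ P, v i) := by
      ring
    rw [e]
    refine (norm_add_le _ _).trans (add_le_add ?_ ?_)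
    · rw [norm_mul]
      apply mul_le_of_le_one_right (norm_nonneg _)
      rw [norm_prod]
      exact prod_le_one (fun _ _ => norm_nonneg _) fun i hi => hu i (mem_insert_of_mem hi)
    · rw [norm_mul]
      exact (mul_le_of_le_one_left (norm_nonneg _) (hv a (mem_insert_self _ _))).trans h1

/-- the setting: functions of the residues modulo the primes in `P`, with mean value zero -/
structure Mod (P : Finset ℕ) (z : ℕ) (Y : ℕ → ℕ → ℝ) (τ : ℝ) : Prop where
  prime : ∀ p ∈ P, p.Prime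
  le : ∀ p ∈ P, p ≤ z
  z1 : 1 ≤ z
  per : ∀ p ∈ P, ∀ x, Y p (x + p) = Y p x
  bd : ∀ p ∈ P, ∀ x, |Y p x| ≤ τ
  τ1 : 1 ≤ τ
  mean : ∀ p ∈ P, ∑ x ∈ range p, Y p x = 0

/-- average -/
noncomputable def E {𝕜 : Type*} [RCLike 𝕜] (N : ℕ) (F : ℕ → 𝕜) : 𝕜 := (∑ x ∈ range N, F x) / N

/-- variance -/
noncomputable def σ2 (Y : ℕ → ℕ → ℝ) (p : ℕ) : ℝ := E p fun x => Y p x ^ 2

lemma σ2_nonneg (Y : ℕ → ℕ → ℝ) (p : ℕ) : 0 ≤ σ2 Y p := by
  unfold σ2 E
  exact div_nonneg (sum_nonneg fun _ _ => sq_nonneg _) (Nat.cast_nonneg _)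

/-- the exponential moments of the model -/
lemma exp_moment {P : Finset ℕ} {z : ℕ} {Y : ℕ → ℕ → ℝ} {τ : ℝ} (h : Mod P z Y τ) {s : ℝ} (hs : |s| * τ ≤ 1) :
    E (∏ p ∈ P, p) (fun x => Real.exp (s * ∑ p ∈ P, Y p x)) ≤ Real.exp (s ^ 2 * ∑ p ∈ P, σ2 Y p) := by
  have h1 : ∀ x, Real.exp (s * ∑ p ∈ P, Y p x) = ∏ p ∈ P, Real.exp (s * Y p x) := by
    intro x
    rw [mul_sum, Real.exp_sum]
  unfold E
  simp only [h1]
  have h2 := crt_prod (𝕜 := ℝ) h.prime (F := fun p x => Real.exp (s * Y p x)) (fun p hp x => by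
    show Real.exp (s * Y p (x + p)) = _
    rw [h.per p hp])
  rw [h2, mul_sum, Real.exp_sum]
  apply prod_le_prod
  · intro p _
    exact div_nonneg (sum_nonneg fun _ _ => (Real.exp_pos _).le) (Nat.cast_nonneg _)
  · intro p hp
    have hp0 : (0 : ℝ) < p := by exact_mod_cast (h.prime p hp).pos
    have h3 : ∀ x, Real.exp (s * Y p x) ≤ 1 + s * Y p x + s ^ 2 * Y p x ^ 2 := by
      intro x
      have h4 : |s * Y p x| ≤ 1 := by
        rw [abs_mul]
        exact (mul_le_mul_of_nonneg_left (h.bd p hp x) (abs_nonneg _)).trans hs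
      have h5 := (abs_le.1 (Real.abs_exp_sub_one_sub_id_le h4)).2
      nlinarith
    have h6 : (∑ x ∈ range p, Real.exp (s * Y p x)) / p ≤ 1 + s ^ 2 * σ2 Y p := by
      rw [div_le_iff₀ hp0]
      refine (sum_le_sum fun x _ => h3 x).trans (le_of_eq ?_)
      rw [sum_add_distrib, sum_add_distrib, ← mul_sum, ← mul_sum, h.mean p hp, sum_const, card_range, nsmul_eq_mul]
      unfold σ2 E
      field_simp
      ring
    refine h6.trans ?_
    have := Real.add_one_le_exp (s ^ 2 * σ2 Y p)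
    linarith

lemma pow_le_exps (u : ℝ) (k : ℕ) : |u| ^ k / k.factorial ≤ Real.exp u + Real.exp (-u) := by
  refine (Real.pow_div_factorial_le_exp _ (abs_nonneg u) k).trans ?_
  rcases abs_cases u with ⟨h, _⟩ | ⟨h, _⟩ <;> rw [h]
  · linarith [Real.exp_pos (-u)]
  · linarith [Real.exp_pos u]

/-- the moments of the model -/
lemma model_moment {P : Finset ℕ} {z : ℕ} {Y : ℕ → ℕ → ℝ} {τ : ℝ} (h : Mod P z Y τ) {B W : ℝ} (hB : 2 * τ ≤ B)
    (hW : ∑ p ∈ P, σ2 Y p ≤ W * B ^ 2) (k : ℕ) :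
    E (∏ p ∈ P, p) (fun x => |(∑ p ∈ P, Y p x) / B| ^ k) / k.factorial ≤ 2 * Real.exp (4 * W) / 2 ^ k := by
  have hτ := h.τ1
  have hB0 : 0 < B := by linarith
  have hk : (0 : ℝ) < k.factorial := by exact_mod_cast k.factorial_pos
  have h1 : ∀ x, |(∑ p ∈ P, Y p x) / B| ^ k / k.factorial ≤
      (Real.exp (2 / B * ∑ p ∈ P, Y p x) + Real.exp (-(2 / B) * ∑ p ∈ P, Y p x)) / 2 ^ k := by
    intro x
    rw [le_div_iff₀ (by positivity)]
    have h2 := pow_le_exps (2 / B * ∑ p ∈ P, Y p x) k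
    rw [← neg_mul] at h2
    refine le_trans (le_of_eq ?_) h2
    rw [show 2 / B * ∑ p ∈ P, Y p x = 2 * ((∑ p ∈ P, Y p x) / B) by ring, abs_mul, mul_pow, abs_two]
    ring
  have h2 : ∀ s : ℝ, s = 2 / B ∨ s = -(2 / B) → E (∏ p ∈ P, p) (fun x => Real.exp (s * ∑ p ∈ P, Y p x)) ≤ Real.exp (4 * W) := by
    intro s hs
    have h3 : |s| = 2 / B := by
      rcases hs with rfl | rfl
      · exact abs_of_pos (by positivity)
      · rw [abs_neg]; exact abs_of_pos (by positivity)
    have h4 : s ^ 2 = 4 / B ^ 2 := by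
      rw [← sq_abs, h3]
      ring
    refine (exp_moment h (s := s) (by rw [h3, div_mul_eq_mul_div, div_le_one hB0]; exact hB)).trans ?_
    apply Real.exp_le_exp.2
    rw [h4]
    calc 4 / B ^ 2 * ∑ p ∈ P, σ2 Y p ≤ 4 / B ^ 2 * (W * B ^ 2) := mul_le_mul_of_nonneg_left hW (by positivity)
      _ = 4 * W := by field_simp
  have hR : (0 : ℝ) < ((∏ p ∈ P, p : ℕ) : ℝ) := by
    exact_mod_cast prod_pos fun p hp => (h.prime p hp).pos
  have e1 := h2 _ (Or.inl rfl)
  have e2 := h2 _ (Or.inr rfl)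
  unfold E at e1 e2 ⊢
  rw [div_le_iff₀ hR] at e1 e2
  rw [div_div, mul_comm, ← div_div, div_le_iff₀ hR, sum_div]
  refine (sum_le_sum fun x _ => h1 x).trans ?_
  rw [← sum_div, sum_add_distrib, div_mul_eq_mul_div, div_le_div_iff_of_pos_right (by positivity)]
  linarith

/-- comparison with the model -/
theorem char_close {P : Finset ℕ} {z : ℕ} {Y : ℕ → ℕ → ℝ} {τ : ℝ} (h : Mod P z Y τ) {B W : ℝ} (hB : 2 * τ ≤ B)
    (hW : ∑ p ∈ P, σ2 Y p ≤ W * B ^ 2) {k : ℕ} (hk : Even k) {N : ℕ} (hN : 1 ≤ N) :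
    ‖E N (fun x => Complex.exp (((∑ p ∈ P, Y p x) / B : ℝ) * Complex.I)) -
      E (∏ p ∈ P, p) (fun x => Complex.exp (((∑ p ∈ P, Y p x) / B : ℝ) * Complex.I))‖ ≤
      4 * (k + 1) * τ ^ k * (z : ℝ) ^ (2 * k) / N + 4 * Real.exp (4 * W) / 2 ^ k := by
  set R := ∏ p ∈ P, p with hR
  set S : ℕ → ℝ := fun x => ∑ p ∈ P, Y p x with hS
  have hτ := h.τ1
  have hB1 : 1 ≤ B := by linarith
  have hB0 : 0 < B := by linarith
  have hR1 : 1 ≤ R := prod_pos fun p hp => (h.prime p hp).pos
  have hz : (1 : ℝ) ≤ z := by exact_mod_cast h.z1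
  have hNr : (0 : ℝ) < N := by exact_mod_cast hN
  have hRr : (0 : ℝ) < R := by exact_mod_cast hR1
  have hmom : ∀ j, |E N (fun x => S x ^ j) - E R (fun x => S x ^ j)| ≤ 4 * τ ^ j * (z : ℝ) ^ (2 * j) / N := fun j =>
    moments (fun p hp => (h.prime p hp).pos) h.le h.per h.bd (by linarith) hR1 (fun p hp => dvd_prod_of_mem _ hp) j hN
  set D := 4 * τ ^ k * (z : ℝ) ^ (2 * k) / N with hD
  have hDj : ∀ j ≤ k, |E N (fun x => (S x / B) ^ j) - E R (fun x => (S x / B) ^ j)| ≤ D := by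
    intro j hj
    have h1 : ∀ M : ℕ, E M (fun x => (S x / B) ^ j) = E M (fun x => S x ^ j) / B ^ j := by
      intro M
      unfold E
      simp only [div_pow]
      rw [← sum_div]
      ring
    rw [h1, h1, ← sub_div, abs_div, abs_of_pos (show 0 < B ^ j by positivity)]
    refine (div_le_self (abs_nonneg _) (one_le_pow₀ hB1)).trans ((hmom j).trans ?_)
    apply div_le_div_of_nonneg_right _ hNr.le
    apply mul_le_mul
    · exact mul_le_mul_of_nonneg_left (pow_le_pow_right₀ hτ hj) (by norm_num)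
    · exact pow_le_pow_right₀ hz (by omega)
    · positivity
    · positivity
  have hD0 : 0 ≤ D := (abs_nonneg _).trans (hDj 0 (Nat.zero_le _))
  -- the expansion
  have hexp : ∀ M : ℕ, E M (fun x => Complex.exp (((S x) / B : ℝ) * Complex.I)) =
      ∑ j ∈ range k, (Complex.I ^ j / (j.factorial : ℂ)) * ((E M (fun x => (S x / B) ^ j) : ℝ) : ℂ) +
        E M (fun x => rem k (S x / B)) := by
    intro M
    unfold E
    have h1 : ∀ x, Complex.exp (((S x) / B : ℝ) * Complex.I) =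
        ∑ j ∈ range k, (Complex.I ^ j / (j.factorial : ℂ)) * ((((S x / B) ^ j : ℝ)) : ℂ) + rem k (S x / B) := by
      intro x
      unfold rem
      have h2 : ∑ j ∈ range k, (Complex.I ^ j / (j.factorial : ℂ)) * ((((S x / B) ^ j : ℝ)) : ℂ) =
          ∑ j ∈ range k, (((S x / B : ℝ) : ℂ) * Complex.I) ^ j / (j.factorial : ℂ) := by
        apply sum_congr rfl
        intro j _
        rw [mul_pow]
        push_cast
        ring
      rw [h2]
      ring
    simp only [h1]
    rw [sum_add_distrib, sum_comm, add_div, sum_div]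
    congr 1
    apply sum_congr rfl
    intro j _
    rw [← mul_sum, mul_div_assoc]
    push_cast
    rfl
  -- the remainder terms
  have hremE : ∀ M : ℕ, 1 ≤ M → ‖E M (fun x => rem k (S x / B))‖ ≤ E M (fun x => |S x / B| ^ k) / k.factorial := by
    intro M hM
    unfold E
    have hMr : (0 : ℝ) < M := by exact_mod_cast hM
    rw [norm_div, RCLike.norm_natCast, div_right_comm, sum_div]
    apply div_le_div_of_nonneg_right _ hMr.le
    exact (norm_sum_le _ _).trans (sum_le_sum fun x _ => rem_le k _)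
  have hmm : E R (fun x => |S x / B| ^ k) / k.factorial ≤ 2 * Real.exp (4 * W) / 2 ^ k := model_moment h hB hW k
  have hkf : (1 : ℝ) ≤ k.factorial := by exact_mod_cast k.factorial_pos
  have hNm : E N (fun x => |S x / B| ^ k) / k.factorial ≤ D + 2 * Real.exp (4 * W) / 2 ^ k := by
    have h1 : ∀ M : ℕ, E M (fun x => |S x / B| ^ k) = E M (fun x => (S x / B) ^ k) := by
      intro M
      unfold E
      simp only [hk.pow_abs]
    have h2 := (abs_le.1 (hDj k le_rfl)).2
    rw [← h1, ← h1] at h2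
    have h3 : E N (fun x => |S x / B| ^ k) / k.factorial ≤ (E R (fun x => |S x / B| ^ k) + D) / k.factorial := by
      apply div_le_div_of_nonneg_right _ (by linarith)
      linarith
    rw [add_div] at h3
    have h4 : D / k.factorial ≤ D := div_le_self hD0 hkf
    linarith
  rw [hexp N, hexp R]
  have e1 : ∑ j ∈ range k, (Complex.I ^ j / (j.factorial : ℂ)) * ((E N (fun x => (S x / B) ^ j) : ℝ) : ℂ) +
        E N (fun x => rem k (S x / B)) - (∑ j ∈ range k, (Complex.I ^ j / (j.factorial : ℂ)) *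
        ((E R (fun x => (S x / B) ^ j) : ℝ) : ℂ) + E R (fun x => rem k (S x / B))) =
      ∑ j ∈ range k, (Complex.I ^ j / (j.factorial : ℂ)) * ((E N (fun x => (S x / B) ^ j) -
        E R (fun x => (S x / B) ^ j) : ℝ) : ℂ) + E N (fun x => rem k (S x / B)) - E R (fun x => rem k (S x / B)) := by
    push_cast
    simp only [mul_sub]
    rw [sum_sub_distrib]
    ring
  rw [e1]
  have e2 : ‖∑ j ∈ range k, (Complex.I ^ j / (j.factorial : ℂ)) * ((E N (fun x => (S x / B) ^ j) -
        E R (fun x => (S x / B) ^ j) : ℝ) : ℂ)‖ ≤ k * D := by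
    refine (norm_sum_le _ _).trans ((sum_le_sum (g := fun _ => D) fun j hj => ?_).trans ?_)
    · rw [mem_range] at hj
      rw [norm_mul, norm_div, norm_pow, Complex.norm_I, one_pow, RCLike.norm_natCast, Complex.norm_real, Real.norm_eq_abs]
      have hjf : (1 : ℝ) ≤ j.factorial := by exact_mod_cast j.factorial_pos
      have : 1 / (j.factorial : ℝ) ≤ 1 := by
        rw [div_le_one (by linarith)]
        exact hjf
      calc 1 / (j.factorial : ℝ) * |E N (fun x => (S x / B) ^ j) - E R (fun x => (S x / B) ^ j)| ≤ 1 * D :=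
            mul_le_mul this (hDj j hj.le) (abs_nonneg _) zero_le_one
        _ = D := one_mul _
    · rw [sum_const, card_range, nsmul_eq_mul]
  have e3 := (hremE N hN).trans hNm
  have e4 := (hremE R hR1).trans hmm
  refine (norm_sub_le _ _).trans ((add_le_add (norm_add_le _ _) le_rfl).trans ?_)
  have e5 : 4 * (k + 1) * τ ^ k * (z : ℝ) ^ (2 * k) / N = (k + 1) * D := by
    rw [hD]
    ring
  have e6 : 4 * Real.exp (4 * W) / 2 ^ k = 2 * Real.exp (4 * W) / 2 ^ k + 2 * Real.exp (4 * W) / 2 ^ k := by ring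
  rw [e5, e6]
  linarith

lemma cexp_three {θ : ℝ} (hθ : |θ| ≤ 1) :
    ‖Complex.exp (θ * Complex.I) - (1 + θ * Complex.I - θ ^ 2 / 2)‖ ≤ |θ| ^ 2 * |θ| := by
  have h1 := rem_le 3 θ
  have h2 : rem 3 θ = Complex.exp (θ * Complex.I) - (1 + θ * Complex.I - θ ^ 2 / 2) := by
    unfold rem
    rw [sum_range_succ, sum_range_succ, sum_range_succ, sum_range_zero, mul_pow _ _ 2, Complex.I_sq,
      show Nat.factorial 0 = 1 from rfl, show Nat.factorial 1 = 1 from rfl, show Nat.factorial 2 = 2 from rfl]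
    push_cast
    ring
  rw [h2] at h1
  have h3 : 0 ≤ |θ| ^ 3 := by positivity
  have h4 : |θ| ^ 3 / ((Nat.factorial 3 : ℕ) : ℝ) ≤ |θ| ^ 3 := by
    apply div_le_self h3
    norm_num [Nat.factorial]
  refine h1.trans (h4.trans (le_of_eq ?_))
  ring

/-- the characteristic function of the model -/
theorem model_char {P : Finset ℕ} {z : ℕ} {Y : ℕ → ℕ → ℝ} {τ : ℝ} (h : Mod P z Y τ) {B W : ℝ} (hB : 2 * τ ≤ B)
    (hW : ∑ p ∈ P, σ2 Y p ≤ W * B ^ 2) :
    ‖E (∏ p ∈ P, p) (fun x => Complex.exp (((∑ p ∈ P, Y p x) / B : ℝ) * Complex.I)) -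
      Complex.exp (-((∑ p ∈ P, σ2 Y p) / (2 * B ^ 2) : ℝ))‖ ≤ 2 * τ * W / B := by
  have hτ := h.τ1
  have hB0 : 0 < B := by linarith
  have h1 : ∀ x, Complex.exp (((∑ p ∈ P, Y p x) / B : ℝ) * Complex.I) = ∏ p ∈ P, Complex.exp ((Y p x / B : ℝ) * Complex.I) := by
    intro x
    rw [← Complex.exp_sum, ← sum_mul, sum_div]
    push_cast
    rfl
  unfold E
  simp only [h1]
  have h2 := crt_prod (𝕜 := ℂ) h.prime (F := fun p x => Complex.exp ((Y p x / B : ℝ) * Complex.I)) (fun p hp x => by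
    show Complex.exp ((Y p (x + p) / B : ℝ) * Complex.I) = _
    rw [h.per p hp])
  have h3 : Complex.exp (-((∑ p ∈ P, σ2 Y p) / (2 * B ^ 2) : ℝ)) = ∏ p ∈ P, Complex.exp (-(σ2 Y p / (2 * B ^ 2) : ℝ)) := by
    rw [← Complex.exp_sum, sum_neg_distrib, sum_div]
    push_cast
    rfl
  rw [h2, h3]
  refine (norm_prod_sub _ _ _ ?_ ?_).trans ?_
  · intro p hp
    have hp0 : (0 : ℝ) < p := by exact_mod_cast (h.prime p hp).pos
    rw [norm_div, Complex.norm_natCast, div_le_one hp0]
    refine (norm_sum_le _ _).trans ((sum_le_sum (g := fun _ => (1 : ℝ)) fun x _ => ?_).trans ?_)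
    · rw [Complex.norm_exp_ofReal_mul_I]
    · rw [sum_const, card_range, nsmul_eq_mul, mul_one]
  · intro p _
    rw [← Complex.ofReal_neg, Complex.norm_exp_ofReal]
    apply Real.exp_le_one_iff.2
    have := σ2_nonneg Y p
    have h4 : 0 ≤ σ2 Y p / (2 * B ^ 2) := by positivity
    linarith
  · have h4 : ∀ p ∈ P, ‖(∑ x ∈ range p, Complex.exp ((Y p x / B : ℝ) * Complex.I)) / (p : ℂ) -
        Complex.exp (-(σ2 Y p / (2 * B ^ 2) : ℝ))‖ ≤ 2 * τ / B ^ 3 * σ2 Y p := by
      intro p hp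
      have hp0 : (0 : ℝ) < p := by exact_mod_cast (h.prime p hp).pos
      have hpc : (p : ℂ) ≠ 0 := by exact_mod_cast (h.prime p hp).ne_zero
      have hσ := σ2_nonneg Y p
      have hY1 : ∀ x, |Y p x / B| ≤ 1 := by
        intro x
        rw [abs_div, abs_of_pos hB0, div_le_one hB0]
        exact (h.bd p hp x).trans (by linarith)
      -- the first part
      have e1 : ‖(∑ x ∈ range p, Complex.exp ((Y p x / B : ℝ) * Complex.I)) / (p : ℂ) -
          ((1 - σ2 Y p / (2 * B ^ 2) : ℝ) : ℂ)‖ ≤ τ / B ^ 3 * σ2 Y p := by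
        have e2 : (∑ x ∈ range p, Complex.exp ((Y p x / B : ℝ) * Complex.I)) / (p : ℂ) -
            ((1 - σ2 Y p / (2 * B ^ 2) : ℝ) : ℂ) = (∑ x ∈ range p, (Complex.exp ((Y p x / B : ℝ) * Complex.I) -
              (1 + (Y p x / B : ℝ) * Complex.I - ((Y p x / B : ℝ) : ℂ) ^ 2 / 2))) / (p : ℂ) := by
          rw [sum_sub_distrib, sub_div]
          congr 1
          rw [sum_sub_distrib, sum_add_distrib, ← sum_mul, ← sum_div, sum_const, card_range, nsmul_eq_mul, mul_one]
          have e3 : ∑ x ∈ range p, ((Y p x / B : ℝ) : ℂ) = 0 := by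
            rw [← Complex.ofReal_sum, ← sum_div, h.mean p hp]
            simp
          have e4 : ∑ x ∈ range p, ((Y p x / B : ℝ) : ℂ) ^ 2 = p * (σ2 Y p / B ^ 2 : ℝ) := by
            have : ∑ x ∈ range p, ((Y p x / B : ℝ) : ℂ) ^ 2 = ((∑ x ∈ range p, (Y p x / B) ^ 2 : ℝ) : ℂ) := by
              push_cast
              rfl
            rw [this]
            unfold σ2 E
            have : ∑ x ∈ range p, (Y p x / B) ^ 2 = (∑ x ∈ range p, Y p x ^ 2) / B ^ 2 := by
              rw [sum_div]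
              apply sum_congr rfl
              intro x _
              rw [div_pow]
            rw [this]
            push_cast
            field_simp
          rw [e3, e4]
          push_cast
          field_simp
          ring
        rw [e2, norm_div, Complex.norm_natCast, div_le_iff₀ hp0]
        refine (norm_sum_le _ _).trans ((sum_le_sum fun x _ => cexp_three (hY1 x)).trans ?_)
        have e5 : ∀ x, |Y p x / B| ^ 2 * |Y p x / B| ≤ Y p x ^ 2 * (τ / B ^ 3) := by
          intro x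
          rw [abs_div, abs_of_pos hB0, div_pow, sq_abs]
          have := h.bd p hp x
          have e6 : Y p x ^ 2 / B ^ 2 * (|Y p x| / B) = Y p x ^ 2 * (|Y p x| / B ^ 3) := by
            field_simp
          rw [e6]
          apply mul_le_mul_of_nonneg_left _ (sq_nonneg _)
          exact div_le_div_of_nonneg_right this (by positivity)
        refine (sum_le_sum fun x _ => e5 x).trans (le_of_eq ?_)
        rw [← sum_mul]
        unfold σ2 E
        field_simp
      have e7 : ‖((1 - σ2 Y p / (2 * B ^ 2) : ℝ) : ℂ) - Complex.exp (-(σ2 Y p / (2 * B ^ 2) : ℝ))‖ ≤ τ / B ^ 3 * σ2 Y p := by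
        rw [← Complex.ofReal_neg, ← Complex.ofReal_exp, ← Complex.ofReal_sub, Complex.norm_real, Real.norm_eq_abs]
        have e8 : σ2 Y p ≤ τ ^ 2 := by
          unfold σ2 E
          rw [div_le_iff₀ hp0]
          refine (sum_le_sum (g := fun _ => τ ^ 2) fun x _ => ?_).trans ?_
          · rw [← sq_abs]
            exact pow_le_pow_left₀ (abs_nonneg _) (h.bd p hp x) 2
          · rw [sum_const, card_range, nsmul_eq_mul, mul_comm]
        have e9 : σ2 Y p / (2 * B ^ 2) ≤ 1 := by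
          rw [div_le_one (by positivity)]
          nlinarith
        have e10 : |-(σ2 Y p / (2 * B ^ 2))| ≤ 1 := by
          rw [abs_neg, abs_of_nonneg (by positivity)]
          exact e9
        have e11 := Real.abs_exp_sub_one_sub_id_le e10
        rw [abs_sub_comm]
        have e12 : Real.exp (-(σ2 Y p / (2 * B ^ 2))) - (1 - σ2 Y p / (2 * B ^ 2)) =
            Real.exp (-(σ2 Y p / (2 * B ^ 2))) - 1 - -(σ2 Y p / (2 * B ^ 2)) := by ring
        rw [e12]
        refine e11.trans ?_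
        rw [neg_sq, div_pow]
        have e13 : σ2 Y p ^ 2 / (2 * B ^ 2) ^ 2 = σ2 Y p / (4 * B) * (1 / B ^ 3 * σ2 Y p) := by
          field_simp
          ring
        have e14 : τ / B ^ 3 * σ2 Y p = τ * (1 / B ^ 3 * σ2 Y p) := by ring
        rw [e13, e14]
        apply mul_le_mul_of_nonneg_right _ (by positivity)
        rw [div_le_iff₀ (by positivity)]
        nlinarith
      calc _ ≤ _ := norm_sub_le_norm_sub_add_norm_sub _ ((1 - σ2 Y p / (2 * B ^ 2) : ℝ) : ℂ) _
        _ ≤ τ / B ^ 3 * σ2 Y p + τ / B ^ 3 * σ2 Y p := add_le_add e1 e7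
        _ = _ := by ring
    refine (sum_le_sum h4).trans ?_
    rw [← mul_sum]
    calc 2 * τ / B ^ 3 * ∑ p ∈ P, σ2 Y p ≤ 2 * τ / B ^ 3 * (W * B ^ 2) := mul_le_mul_of_nonneg_left hW (by positivity)
      _ = 2 * τ * W / B := by field_simp

end Pool.Agent.Helper65.EK
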